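import Mathlib
import Pool.Agent.NH64.DS.S4
import Pool.Agent.Results.MP_ddcbd8_an.SingularDensities

/-!
# Bernoulli convolutions: transfer operator and convolution with the invariant measure
-/

set_option autoImplicit false

open MeasureTheory Set Real
open scoped ENNReal

namespace Pool.Agent.NH64.BC

open Pool.Agent.Results.MP_ddcbd8_an.SingularDensities
open Pool.Agent.NH64.DS.Mn

/-- the transfer operator `P g (y) = (β/2) (g(β y) + g(β y - 1))` -/
noncomputable def PO {E : Type*} [AddCommGroup E] [Module ℝ E] (β : ℝ) (g : ℝ → E) : ℝ → E :=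
  fun y => (β / 2) • (g (β * y) + g (β * y - 1))

lemma PO_apply {E : Type*} [AddCommGroup E] [Module ℝ E] (β : ℝ) (g : ℝ → E) (y : ℝ) :
    PO β g y = (β / 2) • (g (β * y) + g (β * y - 1)) := rfl

lemma f_eq_iter (β : ℝ) (n : ℕ) : f β n = (PO β)^[n] (f β 0) := by
  induction n with
  | zero => rfl
  | succ n ih =>
    rw [Function.iterate_succ_apply', ← ih]
    rfl

lemma PO_mono {β : ℝ} (hβ : 0 < β) {g1 g2 : ℝ → ℝ} (h : ∀ y, g1 y ≤ g2 y) (y : ℝ) :
    PO β g1 y ≤ PO β g2 y := by
  unfold PO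
  have h1 := h (β * y)
  have h2 := h (β * y - 1)
  simp only [smul_eq_mul]
  gcongr

lemma iter_mono {β : ℝ} (hβ : 0 < β) {g1 g2 : ℝ → ℝ} (h : ∀ y, g1 y ≤ g2 y) (n : ℕ) (y : ℝ) :
    (PO β)^[n] g1 y ≤ (PO β)^[n] g2 y := by
  induction n generalizing y with
  | zero => exact h y
  | succ n ih =>
    rw [Function.iterate_succ_apply', Function.iterate_succ_apply']
    exact PO_mono hβ ih y

lemma iter_smul {E : Type*} [AddCommGroup E] [Module ℝ E] (β c : ℝ) (g : ℝ → E) (n : ℕ) (y : ℝ) :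
    (PO β)^[n] (fun z => c • g z) y = c • (PO β)^[n] g y := by
  induction n generalizing y with
  | zero => rfl
  | succ n ih =>
    rw [Function.iterate_succ_apply', Function.iterate_succ_apply', PO_apply, PO_apply, ih, ih,
      ← smul_add, smul_comm]

lemma iter_sub {E : Type*} [AddCommGroup E] [Module ℝ E] (β : ℝ) (g1 g2 : ℝ → E) (n : ℕ) (y : ℝ) :
    (PO β)^[n] (fun z => g1 z - g2 z) y = (PO β)^[n] g1 y - (PO β)^[n] g2 y := by
  induction n generalizing y with
  | zero => rfl
  | succ n ih =>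
    rw [Function.iterate_succ_apply', Function.iterate_succ_apply', Function.iterate_succ_apply',
      PO_apply, PO_apply, PO_apply, ih, ih, ← smul_sub]
    congr 1
    abel

lemma iter_norm {E : Type*} [NormedAddCommGroup E] [NormedSpace ℝ E] {β : ℝ} (hβ : 0 < β)
    (g : ℝ → E) (n : ℕ) (y : ℝ) :
    ‖(PO β)^[n] g y‖ ≤ (PO β)^[n] (fun z => ‖g z‖) y := by
  induction n generalizing y with
  | zero => exact le_rfl
  | succ n ih =>
    rw [Function.iterate_succ_apply', Function.iterate_succ_apply', PO_apply, PO_apply]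
    rw [norm_smul, norm_eq_abs, abs_of_pos (by positivity), smul_eq_mul]
    apply mul_le_mul_of_nonneg_left _ (by positivity)
    exact (norm_add_le _ _).trans (add_le_add (ih _) (ih _))

/-- complexification -/
lemma iter_ofReal (β : ℝ) (g : ℝ → ℝ) (n : ℕ) (y : ℝ) :
    (PO β)^[n] (fun z => ((g z : ℝ) : ℂ)) y = (((PO β)^[n] g y : ℝ) : ℂ) := by
  induction n generalizing y with
  | zero => rfl
  | succ n ih =>
    rw [Function.iterate_succ_apply', Function.iterate_succ_apply', PO_apply, PO_apply, ih, ih,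
      smul_eq_mul, Complex.real_smul]
    push_cast
    ring

/-- scaling relation: `P^k` of `z ↦ g z` composed with dilations -/
lemma iter_add (n k : ℕ) {E : Type*} [AddCommGroup E] [Module ℝ E] (β : ℝ) (g : ℝ → E) :
    (PO β)^[n + k] g = (PO β)^[n] ((PO β)^[k] g) := Function.iterate_add_apply _ _ _ _

lemma measure_ss {β : ℝ} (hβ : 1 < β) :
    bernoulliConv β = (2⁻¹ : ℝ≥0∞) • (bernoulliConv β).map (fun x => x / β) +
      (2⁻¹ : ℝ≥0∞) • (bernoulliConv β).map (fun x => (1 + x) / β) := by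
  ext A hA
  rw [self_similar hβ hA]
  simp only [Measure.coe_add, Measure.coe_smul, Pi.add_apply, Pi.smul_apply, smul_eq_mul]
  rw [Measure.map_apply (by fun_prop) hA, Measure.map_apply (by fun_prop) hA]
  rfl

lemma integral_ss {E : Type*} [NormedAddCommGroup E] [NormedSpace ℝ E] [MeasurableSpace E]
    [BorelSpace E] [SecondCountableTopology E] {β : ℝ} (hβ : 1 < β) {F : ℝ → E}
    (hF : Measurable F) {C : ℝ} (hC : ∀ x, ‖F x‖ ≤ C) :
    ∫ u, F u ∂(bernoulliConv β) = (1 / 2 : ℝ) • (∫ u, F (u / β) ∂(bernoulliConv β) +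
      ∫ u, F ((1 + u) / β) ∂(bernoulliConv β)) := by
  have : Fact (1 < β) := ⟨hβ⟩
  have h0 : Measurable (fun x : ℝ => x / β) := by fun_prop
  have h1 : Measurable (fun x : ℝ => (1 + x) / β) := by fun_prop
  have p0 : IsProbabilityMeasure ((bernoulliConv β).map (fun x => x / β)) :=
    Measure.isProbabilityMeasure_map h0.aemeasurable
  have p1 : IsProbabilityMeasure ((bernoulliConv β).map (fun x => (1 + x) / β)) :=
    Measure.isProbabilityMeasure_map h1.aemeasurable
  have i0 : Integrable F ((2⁻¹ : ℝ≥0∞) • (bernoulliConv β).map (fun x => x / β)) :=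
    (integrable_bdd hF hC).smul_measure (by simp)
  have i1 : Integrable F ((2⁻¹ : ℝ≥0∞) • (bernoulliConv β).map (fun x => (1 + x) / β)) :=
    (integrable_bdd hF hC).smul_measure (by simp)
  conv_lhs => rw [measure_ss hβ]
  rw [integral_add_measure i0 i1, integral_smul_measure, integral_smul_measure,
    integral_map h0.aemeasurable hF.aestronglyMeasurable,
    integral_map h1.aemeasurable hF.aestronglyMeasurable, ← smul_add]
  congr 1
  simp

/-- convolution with the Bernoulli convolution -/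
noncomputable def TB {E : Type*} [NormedAddCommGroup E] [NormedSpace ℝ E] (β : ℝ) (φ : ℝ → E) :
    ℝ → E := fun y => ∫ u, φ (y - u) ∂(bernoulliConv β)

lemma PO_TB {E : Type*} [NormedAddCommGroup E] [NormedSpace ℝ E] [MeasurableSpace E]
    [BorelSpace E] [SecondCountableTopology E] {β : ℝ} (hβ : 1 < β) {φ : ℝ → E}
    (hφ : Measurable φ) {C : ℝ} (hC : ∀ x, ‖φ x‖ ≤ C) :
    PO β (TB β φ) = TB β (fun v => β • φ (β * v)) := by
  have hβ0 : β ≠ 0 := by linarith
  ext y
  unfold PO TB
  rw [integral_smul, integral_ss hβ (F := fun u => φ (β * (y - u)))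
    (hφ.comp (by fun_prop)) (fun x => hC _), smul_smul]
  congr 1
  · ring
  · congr 1
    · congr 1
      ext u
      congr 1
      field_simp
    · congr 1
      ext u
      congr 1
      field_simp
      ring

lemma iter_TB {E : Type*} [NormedAddCommGroup E] [NormedSpace ℝ E] [MeasurableSpace E]
    [BorelSpace E] [SecondCountableTopology E] {β : ℝ} (hβ : 1 < β) {φ : ℝ → E}
    (hφ : Measurable φ) {C : ℝ} (hC : ∀ x, ‖φ x‖ ≤ C) (n : ℕ) :
    (PO β)^[n] (TB β φ) = TB β (fun v => β ^ n • φ (β ^ n * v)) := by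
  induction n with
  | zero => simp
  | succ n ih =>
    rw [Function.iterate_succ_apply', ih]
    rw [PO_TB hβ (φ := fun v => β ^ n • φ (β ^ n * v)) (C := β ^ n * C)]
    · congr 1
      ext v
      rw [smul_smul, ← pow_succ']
      congr 2
      rw [pow_succ]
      ring
    · exact (hφ.comp (by fun_prop)).const_smul _
    · intro x
      rw [norm_smul, norm_eq_abs, abs_of_pos (by positivity)]
      gcongr
      exact hC _

/-- characteristic function -/
noncomputable def bh (β ξ : ℝ) : ℂ := ∫ u, ee (-(u * ξ)) ∂(bernoulliConv β)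

lemma bh_mul {β : ℝ} (hβ : 1 < β) (ξ : ℝ) :
    bh β (β * ξ) = (1 + ee (-ξ)) / 2 * bh β ξ := by
  have hβ0 : β ≠ 0 := by linarith
  have : Fact (1 < β) := ⟨hβ⟩
  unfold bh
  rw [integral_ss hβ (F := fun u => ee (-(u * (β * ξ)))) (ee_meas.comp (by fun_prop))
    (fun x => (ee_norm _).le)]
  have e1 : ∀ u : ℝ, ee (-(u / β * (β * ξ))) = ee (-(u * ξ)) := by
    intro u; congr 1; field_simp
  have e2 : ∀ u : ℝ, ee (-((1 + u) / β * (β * ξ))) = ee (-ξ) * ee (-(u * ξ)) := by
    intro u; rw [← ee_add]; congr 1; field_simp; ring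
  rw [integral_congr_ae (Filter.Eventually.of_forall e1),
    integral_congr_ae (Filter.Eventually.of_forall e2)]
  rw [integral_const_mul, Complex.real_smul]
  push_cast
  ring

lemma bh_zero {β : ℝ} (hβ : 1 < β) : bh β 0 = 1 := by
  have : Fact (1 < β) := ⟨hβ⟩
  unfold bh
  simp [ee_zero]

lemma norm_one_add_ee (ξ : ℝ) : ‖(1 + ee (-ξ)) / 2‖ = |cos (π * ξ)| := by
  have h1 : (1 + ee (-ξ)) / 2 = ee (-(ξ / 2)) * ((cos (π * ξ) : ℝ) : ℂ) := by
    have h2 : ee (-ξ) = ee (-(ξ / 2)) * ee (-(ξ / 2)) := by rw [← ee_add]; congr 1; ring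
    have h3 : (1 : ℂ) = ee (-(ξ / 2)) * ee (ξ / 2) := by
      rw [← ee_add, neg_add_cancel, ee_zero]
    have h4 : ((cos (π * ξ) : ℝ) : ℂ) = (ee (ξ / 2) + ee (-(ξ / 2))) / 2 := by
      unfold ee
      rw [Complex.ofReal_cos, Complex.cos]
      congr 2
      · congr 1; push_cast; ring
      · congr 1; push_cast; ring
    rw [h4, h2]
    nth_rewrite 1 [h3]
    ring
  rw [h1, norm_mul, ee_norm, one_mul, Complex.norm_real, norm_eq_abs]

lemma bh_norm_mul {β : ℝ} (hβ : 1 < β) (ξ : ℝ) :
    ‖bh β (β * ξ)‖ = |cos (π * ξ)| * ‖bh β ξ‖ := by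
  rw [bh_mul hβ, norm_mul, norm_one_add_ee]

lemma bh_norm_pow {β : ℝ} (hβ : 1 < β) (ξ : ℝ) (k : ℕ) :
    ‖bh β (β ^ k * ξ)‖ = (∏ i ∈ Finset.range k, |cos (π * (β ^ i * ξ))|) * ‖bh β ξ‖ := by
  induction k with
  | zero => simp
  | succ k ih =>
    rw [pow_succ', mul_assoc, bh_norm_mul hβ, ih, Finset.prod_range_succ]
    ring

lemma bh_cont {β : ℝ} (hβ : 1 < β) : Continuous (bh β) := by
  have : Fact (1 < β) := ⟨hβ⟩
  apply continuous_of_dominated (bound := fun _ => 1)
  · intro ξ
    exact (ee_meas.comp (by fun_prop)).aestronglyMeasurable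
  · intro ξ
    filter_upwards with x using by simp [ee_norm]
  · exact integrable_const _
  · filter_upwards with x
    exact ee_cont.comp (by fun_prop)

end Pool.Agent.NH64.BC
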