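import Mathlib
import Pool.Agent.NH64.BC.Basic

/-!
# Aperiodicity: products of cosines along an orbit tend to zero
-/

set_option autoImplicit false

open MeasureTheory Set Real Filter Topology

namespace Pool.Agent.NH64.BC

open Pool.Agent.NH64.DS.Mn

lemma zero_form {β : ℝ} (hβ : 1 < β) {ξ : ℝ} (h : bh β ξ = 0) :
    ∃ j : ℕ, 1 ≤ j ∧ ∃ l : ℤ, ξ = β ^ j * (l + 1 / 2) := by
  have hβ0 : 0 < β := by linarith
  have ht : Tendsto (fun J : ℕ => bh β ((β⁻¹) ^ J * ξ)) atTop (𝓝 1) := by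
    have h1 : Tendsto (fun J : ℕ => (β⁻¹) ^ J * ξ) atTop (𝓝 0) := by
      have := (tendsto_pow_atTop_nhds_zero_of_lt_one (r := β⁻¹) (by positivity)
        (inv_lt_one_of_one_lt₀ hβ)).mul_const ξ
      simpa using this
    have h2 := ((bh_cont hβ).tendsto 0).comp h1
    rw [bh_zero hβ] at h2
    exact h2
  obtain ⟨J, hJ⟩ := (ht.eventually_ne one_ne_zero).exists
  have h3 := bh_norm_pow hβ ((β⁻¹) ^ J * ξ) J
  have e1 : β ^ J * ((β⁻¹) ^ J * ξ) = ξ := by
    rw [← mul_assoc, ← mul_pow, mul_inv_cancel₀ hβ0.ne', one_pow, one_mul]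
  rw [e1, h, norm_zero] at h3
  have h4 : ∏ i ∈ Finset.range J, |cos (π * (β ^ i * ((β⁻¹) ^ J * ξ)))| = 0 := by
    rcases mul_eq_zero.mp h3.symm with h5 | h5
    · exact h5
    · exact absurd (norm_eq_zero.mp h5) hJ
  obtain ⟨i, hi, h5⟩ := Finset.prod_eq_zero_iff.mp h4
  rw [Finset.mem_range] at hi
  rw [abs_eq_zero, cos_eq_zero_iff] at h5
  obtain ⟨l, hl⟩ := h5
  refine ⟨J - i, by omega, l, ?_⟩
  have h6 : β ^ i * ((β⁻¹) ^ J * ξ) = l + 1 / 2 := by
    have : π * (β ^ i * ((β⁻¹) ^ J * ξ)) = π * (l + 1 / 2) := by rw [hl]; ring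
    exact mul_left_cancel₀ pi_ne_zero this
  rw [← h6]
  have e2 : β ^ (J - i) * β ^ i = β ^ J := by rw [← pow_add]; congr 1; omega
  calc ξ = β ^ J * ((β⁻¹) ^ J * ξ) := e1.symm
    _ = _ := by rw [← e2]; ring

/-- if `b = u / v` is rational, `b > 1` and the multiples `b^i y` approach the integers, they are
eventually integers -/
lemma round_zero {r : ℕ → ℝ} {n : ℕ → ℤ} {x : ℕ → ℝ} {d : ℕ} {b : ℝ} {u v : ℤ} (hv : v ≠ 0)
    (hb : 1 < b) (hbuv : (v : ℝ) * b = u) (hx : ∀ i, x (i + d) = b * x i)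
    (hr : ∀ i, x i = n i + r i) (hr0 : Tendsto r atTop (𝓝 0)) :
    ∃ i0, ∀ i ≥ i0, r i = 0 := by
  have h1 : ∀ i, ((v * n (i + d) - u * n i : ℤ) : ℝ) = u * r i - v * r (i + d) := by
    intro i
    have h2 := hx i
    rw [hr i, hr (i + d)] at h2
    push_cast
    rw [← hbuv]
    linear_combination (v : ℝ) * h2
  have h2 : Tendsto (fun i => ((v * n (i + d) - u * n i : ℤ) : ℝ)) atTop (𝓝 0) := by
    simp only [h1]
    have h3 := (hr0.const_mul (u : ℝ)).sub (((tendsto_add_atTop_iff_nat d).mpr hr0).const_mul (v : ℝ))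
    simpa using h3
  have h3 : ∀ᶠ i in atTop, v * n (i + d) - u * n i = 0 := by
    filter_upwards [h2.eventually (Metric.ball_mem_nhds 0 one_pos)] with i hi
    rw [Real.dist_0_eq_abs] at hi
    have h4 : |v * n (i + d) - u * n i| < 1 := by exact_mod_cast hi
    exact Int.abs_lt_one_iff.mp h4
  obtain ⟨i0, hi0⟩ := eventually_atTop.mp h3
  refine ⟨i0, fun i hi => ?_⟩
  have hstep : ∀ j ≥ i0, r (j + d) = b * r j := by
    intro j hj
    have h4 := h1 j
    rw [hi0 j hj] at h4
    push_cast at h4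
    have hv' : (v : ℝ) ≠ 0 := by exact_mod_cast hv
    rw [← hbuv] at h4
    have h5 : (v : ℝ) * (r (j + d)) = v * (b * r j) := by linarith
    exact mul_left_cancel₀ hv' h5
  have hiter : ∀ l : ℕ, r (i + l * d) = b ^ l * r i := by
    intro l
    induction l with
    | zero => simp
    | succ l ih =>
      have e : i + (l + 1) * d = (i + l * d) + d := by ring
      rw [e, hstep _ (le_trans hi (Nat.le_add_right _ _)), ih, pow_succ]
      ring
  -- d = 0 is impossible unless x = 0; treat through boundedness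
  by_contra hne
  have hd : d ≠ 0 := by
    rintro rfl
    have h4 := hx i
    have h5 := hstep i hi
    simp only [add_zero] at h5
    have : (b - 1) * r i = 0 := by linarith
    rcases mul_eq_zero.mp this with h6 | h6
    · linarith
    · exact hne h6
  have h4 : Tendsto (fun l : ℕ => |r (i + l * d)|) atTop (𝓝 0) := by
    have h5 : Tendsto (fun l : ℕ => i + l * d) atTop atTop := by
      apply tendsto_atTop_mono (f := fun l : ℕ => l) _ tendsto_id
      intro l
      have : l * 1 ≤ l * d := Nat.mul_le_mul_left l (Nat.one_le_iff_ne_zero.mpr hd)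
      omega
    have h6 := (hr0.comp h5).abs
    simpa using h6
  have h5 : Tendsto (fun l : ℕ => |r (i + l * d)|) atTop atTop := by
    have h6 : ∀ l, |r (i + l * d)| = b ^ l * |r i| := by
      intro l
      rw [hiter, abs_mul, abs_of_pos (by positivity)]
    simp only [h6]
    exact (tendsto_pow_atTop_atTop_of_one_lt hb).atTop_mul_const (abs_pos.mpr hne)
  exact not_tendsto_nhds_of_tendsto_atTop h5 0 h4

lemma rat_contra {β : ℝ} (hβ : 1 < β) (hβ2 : β < 2) {n : ℕ → ℤ} {i0 : ℕ} (hn0 : n i0 ≠ 0)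
    (h : ∀ l : ℕ, (n (i0 + l) : ℝ) = β ^ l * n i0) : False := by
  have hn0' : (n i0 : ℝ) ≠ 0 := by exact_mod_cast hn0
  set q : ℚ := (n (i0 + 1) : ℚ) / (n i0 : ℚ) with hq
  have hqβ : (q : ℝ) = β := by
    rw [hq]
    push_cast
    rw [h 1, pow_one]
    field_simp
  have hq1 : 1 < q := by
    have : ((1 : ℚ) : ℝ) < (q : ℝ) := by rw [hqβ]; simpa using hβ
    exact_mod_cast this
  have hq2 : q < 2 := by
    have : (q : ℝ) < ((2 : ℚ) : ℝ) := by rw [hqβ]; simpa using hβ2
    exact_mod_cast this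
  have hden : 2 ≤ q.den := by
    have h1 : q.den ≠ 0 := q.den_nz
    have h2 : q.den ≠ 1 := by
      intro h3
      have h4 : (q.num : ℚ) = q := (Rat.den_eq_one_iff q).mp h3
      rw [← h4] at hq1 hq2
      have h5 : (1 : ℤ) < q.num := by exact_mod_cast hq1
      have h6 : q.num < (2 : ℤ) := by exact_mod_cast hq2
      omega
    omega
  have hdvd : ∀ l : ℕ, ((q.den : ℤ) ^ l) ∣ n i0 := by
    intro l
    have h1 : (n (i0 + l) : ℚ) = q ^ l * n i0 := by
      have : ((n (i0 + l) : ℚ) : ℝ) = ((q ^ l * n i0 : ℚ) : ℝ) := by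
        push_cast
        rw [hqβ, h l]
      exact_mod_cast this
    have h2 : q = q.num / q.den := (Rat.num_div_den q).symm
    have hdq : (q.den : ℚ) ≠ 0 := by exact_mod_cast q.den_nz
    have h3 : ((q.den : ℤ) ^ l * n (i0 + l) : ℤ) = q.num ^ l * n i0 := by
      have : (((q.den : ℤ) ^ l * n (i0 + l) : ℤ) : ℚ) = ((q.num ^ l * n i0 : ℤ) : ℚ) := by
        push_cast
        rw [h1]
        have h4 : (q.den : ℚ) ^ l * q ^ l = (q.num : ℚ) ^ l := by
          rw [← mul_pow]
          congr 1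
          exact Rat.den_mul_eq_num q
        rw [← mul_assoc, h4]
      exact_mod_cast this
    have h4 : IsCoprime ((q.den : ℤ) ^ l) (q.num ^ l) := by
      apply IsCoprime.pow
      rw [isCoprime_comm]
      exact Rat.isCoprime_num_den q
    exact h4.dvd_of_dvd_mul_left (Dvd.intro _ h3)
  obtain ⟨l, hl⟩ := pow_unbounded_of_one_lt (n i0).natAbs (by norm_num : 1 < 2)
  have h5 := Int.natAbs_dvd_natAbs.mpr (hdvd l)
  rw [Int.natAbs_pow, Int.natAbs_natCast] at h5
  have h6 := Nat.le_of_dvd (Int.natAbs_pos.mpr hn0) h5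
  have h7 : 2 ^ l ≤ q.den ^ l := Nat.pow_le_pow_left hden l
  omega

theorem aper {β : ℝ} (hβ : 1 < β) (hβ2 : β < 2) (hac : Tendsto (bh β) (cocompact ℝ) (𝓝 0))
    {ξ : ℝ} (hξ : ξ ≠ 0) :
    Tendsto (fun k : ℕ => ∏ i ∈ Finset.range k, |cos (π * (β ^ i * ξ))|) atTop (𝓝 0) := by
  have hβ0 : 0 < β := by linarith
  set c : ℕ → ℝ := fun i => |cos (π * (β ^ i * ξ))| with hc
  have hc0 : ∀ i, 0 ≤ c i := fun i => abs_nonneg _
  have hc1 : ∀ i, c i ≤ 1 := fun i => abs_cos_le_one _
  set p : ℕ → ℝ := fun k => ∏ i ∈ Finset.range k, c i with hp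
  have hp0 : ∀ k, 0 ≤ p k := fun k => Finset.prod_nonneg (fun i _ => hc0 i)
  have hps : ∀ k, p (k + 1) = p k * c k := fun k => Finset.prod_range_succ _ _
  have hpa : Antitone p := by
    apply antitone_nat_of_succ_le
    intro k
    rw [hps]
    exact mul_le_of_le_one_right (hp0 k) (hc1 k)
  have hp1 : ∀ k, p k ≤ 1 := fun k => Finset.prod_le_one (fun i _ => hc0 i) (fun i _ => hc1 i)
  have hbdd : BddBelow (range p) := ⟨0, by rintro _ ⟨k, rfl⟩; exact hp0 k⟩
  have hlim := tendsto_atTop_ciInf hpa hbdd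
  set δ := ⨅ k, p k with hδ
  have hδ0 : 0 ≤ δ := le_ciInf hp0
  rcases eq_or_lt_of_le hδ0 with h | hδp
  · rw [← h] at hlim
    exact hlim
  exfalso
  have hδp' : ∀ k, δ ≤ p k := fun k => ciInf_le hbdd k
  -- factors tend to one
  have hct : Tendsto c atTop (𝓝 1) := by
    have h1 : Tendsto (fun k => p (k + 1) / p k) atTop (𝓝 (δ / δ)) :=
      ((tendsto_add_atTop_iff_nat 1).mpr hlim).div hlim hδp.ne'
    rw [div_self hδp.ne'] at h1
    refine h1.congr (fun k => ?_)
    rw [hps, mul_div_cancel_left₀]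
    exact (lt_of_lt_of_le hδp (hδp' k)).ne'
  -- divergence of the orbit
  have horb : ∀ y : ℝ, y ≠ 0 → Tendsto (fun k : ℕ => bh β (β ^ k * y)) atTop (𝓝 0) := by
    intro y hy
    apply hac.comp
    rw [← Metric.cobounded_eq_cocompact]
    rw [← tendsto_norm_atTop_iff_cobounded]
    have : ∀ k : ℕ, ‖β ^ k * y‖ = β ^ k * |y| := by
      intro k
      rw [norm_mul, norm_eq_abs, norm_eq_abs, abs_of_pos (by positivity)]
    simp only [this]
    exact (tendsto_pow_atTop_atTop_of_one_lt hβ).atTop_mul_const (abs_pos.mpr hy)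
  -- step 1
  have hz1 : bh β ξ = 0 := by
    have h1 : ∀ k, δ * ‖bh β ξ‖ ≤ ‖bh β (β ^ k * ξ)‖ := by
      intro k
      rw [bh_norm_pow hβ ξ k]
      exact mul_le_mul_of_nonneg_right (hδp' k) (norm_nonneg _)
    have h2 := ge_of_tendsto (horb ξ hξ).norm (Eventually.of_forall h1)
    rw [norm_zero] at h2
    have h3 : ‖bh β ξ‖ ≤ 0 := by
      by_contra hc
      push Not at hc
      have := mul_pos hδp hc
      linarith
    exact norm_le_zero_iff.mp h3
  -- step 2
  obtain ⟨k0, hk0⟩ : ∃ k0, ∀ i ≥ k0, 2 / 3 ≤ (c i) ^ 2 := by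
    have h1 : Tendsto (fun i => (c i) ^ 2) atTop (𝓝 (1 ^ 2)) := hct.pow 2
    rw [one_pow] at h1
    exact eventually_atTop.mp (h1.eventually_const_le (by norm_num))
  have hz2 : bh β (2 * (β ^ k0 * ξ)) = 0 := by
    have h1 : ∀ k, δ ^ 8 * ‖bh β (2 * (β ^ k0 * ξ))‖ ≤ ‖bh β (β ^ k * (2 * (β ^ k0 * ξ)))‖ := by
      intro k
      rw [bh_norm_pow hβ _ k]
      apply mul_le_mul_of_nonneg_right _ (norm_nonneg _)
      have h2 : p (k0 + k) = p k0 * ∏ i ∈ Finset.range k, c (k0 + i) := Finset.prod_range_add _ _ _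
      have h3 : δ ≤ ∏ i ∈ Finset.range k, c (k0 + i) := by
        have h4 : 0 ≤ ∏ i ∈ Finset.range k, c (k0 + i) := Finset.prod_nonneg (fun i _ => hc0 _)
        calc δ ≤ p (k0 + k) := hδp' _
          _ = p k0 * ∏ i ∈ Finset.range k, c (k0 + i) := h2
          _ ≤ 1 * ∏ i ∈ Finset.range k, c (k0 + i) := by gcongr; exact hp1 k0
          _ = _ := one_mul _
      calc δ ^ 8 ≤ (∏ i ∈ Finset.range k, c (k0 + i)) ^ 8 := by gcongr
        _ = ∏ i ∈ Finset.range k, (c (k0 + i)) ^ 8 := by rw [Finset.prod_pow]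
        _ ≤ ∏ i ∈ Finset.range k, |cos (π * (β ^ i * (2 * (β ^ k0 * ξ))))| := by
          apply Finset.prod_le_prod
          · intro i _
            exact pow_nonneg (hc0 _) 8
          · intro i _
            have h4 := hk0 (k0 + i) (by omega)
            have h5 : cos (π * (β ^ i * (2 * (β ^ k0 * ξ)))) = 2 * (c (k0 + i)) ^ 2 - 1 := by
              have e1 : π * (β ^ i * (2 * (β ^ k0 * ξ))) = 2 * (π * (β ^ (k0 + i) * ξ)) := by
                rw [pow_add]; ring
              rw [e1, cos_two_mul, hc, sq_abs]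
            rw [h5, abs_of_nonneg (by linarith)]
            have h6 : (c (k0 + i)) ^ 2 ≤ 1 := by
              have := hc1 (k0 + i)
              have := hc0 (k0 + i)
              nlinarith
            set y := (c (k0 + i)) ^ 2 with hy
            have h7 : (c (k0 + i)) ^ 8 = y ^ 4 := by rw [hy]; ring
            rw [h7]
            have h8 : 0 ≤ 1 - y := by linarith
            have h9 : 1 - y ≤ 1 / 3 := by linarith
            nlinarith [mul_nonneg h8 h8, mul_nonneg (mul_nonneg h8 h8) h8,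
              mul_nonneg (mul_nonneg h8 h8) (mul_nonneg h8 h8)]
    have hne : 2 * (β ^ k0 * ξ) ≠ 0 := by positivity
    have h2 := ge_of_tendsto (horb _ hne).norm (Eventually.of_forall h1)
    rw [norm_zero] at h2
    have h3 : ‖bh β (2 * (β ^ k0 * ξ))‖ ≤ 0 := by
      by_contra hc
      push Not at hc
      have := mul_pos (pow_pos hδp 8) hc
      linarith
    exact norm_le_zero_iff.mp h3
  -- step 3: a power of beta is rational
  obtain ⟨j1, _, l1, h1⟩ := zero_form hβ hz1
  obtain ⟨j2, _, l2, h2⟩ := zero_form hβ hz2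
  have hrel : 2 * (2 * (l1 : ℝ) + 1) * β ^ (k0 + j1) = (2 * (l2 : ℝ) + 1) * β ^ j2 := by
    rw [h1] at h2
    rw [pow_add]
    linear_combination 2 * h2
  obtain ⟨d, u, v, hv, hd1, huv⟩ : ∃ (d : ℕ) (u v : ℤ), v ≠ 0 ∧ 1 ≤ d ∧ (v : ℝ) * β ^ d = u := by
    rcases lt_trichotomy (k0 + j1) j2 with h | h | h
    · refine ⟨j2 - (k0 + j1), 2 * (2 * l1 + 1), 2 * l2 + 1, by omega, by omega, ?_⟩
      have e : β ^ j2 = β ^ (j2 - (k0 + j1)) * β ^ (k0 + j1) := by
        rw [← pow_add]; congr 1; omega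
      rw [e] at hrel
      have hpos : β ^ (k0 + j1) ≠ 0 := by positivity
      push_cast
      have : (2 * (2 * (l1 : ℝ) + 1)) * β ^ (k0 + j1)
          = ((2 * (l2 : ℝ) + 1) * β ^ (j2 - (k0 + j1))) * β ^ (k0 + j1) := by
        rw [hrel]; ring
      exact (mul_right_cancel₀ hpos this).symm
    · exfalso
      rw [h] at hrel
      have hpos : β ^ j2 ≠ 0 := by positivity
      have h3 := mul_right_cancel₀ hpos hrel
      have h4 : 2 * (2 * l1 + 1) = 2 * l2 + 1 := by exact_mod_cast h3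
      omega
    · refine ⟨(k0 + j1) - j2, 2 * l2 + 1, 2 * (2 * l1 + 1), by omega, by omega, ?_⟩
      have e : β ^ (k0 + j1) = β ^ ((k0 + j1) - j2) * β ^ j2 := by
        rw [← pow_add]; congr 1; omega
      rw [e] at hrel
      have hpos : β ^ j2 ≠ 0 := by positivity
      push_cast
      have : (2 * (2 * (l1 : ℝ) + 1) * β ^ ((k0 + j1) - j2)) * β ^ j2
          = (2 * (l2 : ℝ) + 1) * β ^ j2 := by
        rw [← hrel]; ring
      exact mul_right_cancel₀ hpos this
  -- step 4: distances to the integers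
  set r : ℕ → ℝ := fun i => β ^ i * ξ - round (β ^ i * ξ) with hr
  have hr0 : Tendsto r atTop (𝓝 0) := by
    have h3 : ∀ i, (r i) ^ 2 ≤ (1 - c i) / 2 := by
      intro i
      have h4 : |r i| ≤ 1 / 2 := abs_sub_round _
      have h5 : c i = cos (π * r i) := by
        have h6 : cos (π * (β ^ i * ξ)) = (-1) ^ (round (β ^ i * ξ)) * cos (π * r i) := by
          have : π * (β ^ i * ξ) = π * r i + (round (β ^ i * ξ) : ℤ) * π := by
            rw [hr]; ring
          rw [this, cos_add_int_mul_pi]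
        rw [hc]
        simp only
        rw [h6, abs_mul, abs_zpow, abs_neg, abs_one, one_zpow, one_mul]
        apply abs_of_nonneg
        apply cos_nonneg_of_mem_Icc
        rw [abs_le] at h4
        constructor <;> nlinarith [pi_pos]
      have h7 : |π * r i| ≤ π := by
        rw [abs_mul, abs_of_pos pi_pos]
        nlinarith [pi_pos]
      have h8 := cos_le_one_sub_mul_cos_sq h7
      have h9 : 2 / π ^ 2 * (π * r i) ^ 2 = 2 * (r i) ^ 2 := by
        have := pi_ne_zero
        field_simp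
      rw [h5]
      linarith
    have h4 : Tendsto (fun i => (1 - c i) / 2) atTop (𝓝 0) := by
      have := (hct.const_sub 1).div_const 2
      simpa using this
    have h5 : Tendsto (fun i => (r i) ^ 2) atTop (𝓝 0) :=
      squeeze_zero (fun i => sq_nonneg _) h3 h4
    have h6 := h5.sqrt
    rw [Real.sqrt_zero] at h6
    simp only [Real.sqrt_sq_eq_abs] at h6
    exact (tendsto_zero_iff_abs_tendsto_zero _).mpr h6
  have hb : 1 < β ^ d := one_lt_pow₀ hβ (by omega)
  obtain ⟨i0, hi0⟩ := round_zero (r := r) (n := fun i => round (β ^ i * ξ))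
    (x := fun i => β ^ i * ξ) (d := d) hv hb huv
    (fun i => by rw [pow_add]; ring) (fun i => by rw [hr]; ring) hr0
  -- step 5
  have hn : ∀ i ≥ i0, ((round (β ^ i * ξ) : ℤ) : ℝ) = β ^ i * ξ := by
    intro i hi
    have := hi0 i hi
    rw [hr] at this
    simp only at this
    linarith
  apply rat_contra hβ hβ2 (n := fun i => round (β ^ i * ξ)) (i0 := i0)
  · intro h0
    have h3 := hn i0 le_rfl
    rw [h0] at h3
    have : β ^ i0 * ξ ≠ 0 := by positivity
    exact this (by rw [← h3]; simp)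
  · intro l
    rw [hn (i0 + l) (by omega), hn i0 le_rfl, pow_add]
    ring

end Pool.Agent.NH64.BC
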