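import Mathlib

/-!
# Lebesgue points and kernels with quadratic decay
-/

set_option autoImplicit false

open MeasureTheory Set Real Filter Topology
open scoped ENNReal

namespace Pool.Agent.NH64.BC

/-- the property of being a Lebesgue point -/
def LPt (h : ℝ → ℝ) (x : ℝ) : Prop :=
  Tendsto (fun r : ℝ => ⨍ y in Metric.closedBall x r, ‖h y - h x‖) (𝓝[>] 0) (𝓝 0)

lemma ae_LPt {h : ℝ → ℝ} (hh : Integrable h) : ∀ᵐ x, LPt h x := by
  have h1 := IsUnifLocDoublingMeasure.ae_tendsto_average_norm_sub (volume : Measure ℝ)
    hh.locallyIntegrable 1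
  filter_upwards [h1] with x hx
  apply hx (fun _ => x) (fun r => r) tendsto_id
  filter_upwards [self_mem_nhdsWithin] with r hr
  rw [Metric.mem_closedBall, dist_self]
  have : 0 < r := hr
  linarith

/-- local integral -/
noncomputable def Ii (h : ℝ → ℝ) (x r : ℝ) : ℝ := ∫ y in Metric.closedBall x r, ‖h y - h x‖

lemma Ii_nonneg (h : ℝ → ℝ) (x r : ℝ) : 0 ≤ Ii h x r := integral_nonneg (fun _ => norm_nonneg _)

lemma Ii_tendsto {h : ℝ → ℝ} {x : ℝ} (hx : LPt h x) :
    Tendsto (fun r : ℝ => Ii h x r / (2 * r)) (𝓝[>] 0) (𝓝 0) := by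
  refine hx.congr' ?_
  filter_upwards [self_mem_nhdsWithin] with r hr
  have hr' : 0 < r := hr
  rw [setAverage_eq, measureReal_def, Real.volume_closedBall,
    ENNReal.toReal_ofReal (by positivity), smul_eq_mul]
  unfold Ii
  rw [div_eq_inv_mul]

lemma int_sub {h : ℝ → ℝ} (hh : Integrable h) (x r : ℝ) :
    IntegrableOn (fun y => ‖h y - h x‖) (Metric.closedBall x r) := by
  apply Integrable.norm
  apply Integrable.sub hh.integrableOn
  apply integrableOn_const
  · exact measure_closedBall_lt_top.ne
  · exact enorm_ne_top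

lemma Ii_le {h : ℝ → ℝ} (hh : Integrable h) (x : ℝ) {r : ℝ} (hr : 0 < r) :
    Ii h x r ≤ (∫ y, ‖h y‖) + 2 * r * |h x| := by
  unfold Ii
  have i1 : IntegrableOn (fun y => ‖h y‖ + |h x|) (Metric.closedBall x r) := by
    apply Integrable.add hh.norm.integrableOn
    apply integrableOn_const
    · exact measure_closedBall_lt_top.ne
    · exact enorm_ne_top
  calc ∫ y in Metric.closedBall x r, ‖h y - h x‖
      ≤ ∫ y in Metric.closedBall x r, (‖h y‖ + |h x|) := by
        apply integral_mono (int_sub hh x r) i1
        intro y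
        exact norm_sub_le _ _
    _ = (∫ y in Metric.closedBall x r, ‖h y‖) + 2 * r * |h x| := by
        rw [integral_add hh.norm.integrableOn]
        · simp only [integral_const, smul_eq_mul]
          rw [measureReal_def, Measure.restrict_apply_univ, Real.volume_closedBall,
            ENNReal.toReal_ofReal (by positivity)]
        · apply integrableOn_const
          · exact measure_closedBall_lt_top.ne
          · exact enorm_ne_top
    _ ≤ _ := by
        have := setIntegral_le_integral (s := Metric.closedBall x r) hh.norm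
          (Eventually.of_forall fun _ => norm_nonneg _)
        linarith

/-- uniform bound of the averages -/
lemma Ii_bdd {h : ℝ → ℝ} (hh : Integrable h) {x : ℝ} (hx : LPt h x) :
    ∃ A : ℝ, 0 ≤ A ∧ ∀ r, 0 < r → Ii h x r / (2 * r) ≤ A := by
  have h1 := (Ii_tendsto hx).eventually_lt_const zero_lt_one
  obtain ⟨r0, hr0, h2⟩ := (mem_nhdsGT_iff_exists_Ioo_subset).mp h1
  have hr0' : 0 < r0 := hr0
  refine ⟨max 1 ((∫ y, ‖h y‖) / (2 * r0) + |h x|), le_max_of_le_left zero_le_one, fun r hr => ?_⟩
  rcases lt_or_ge r r0 with h3 | h3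
  · exact (le_of_lt (h2 ⟨hr, h3⟩)).trans (le_max_left _ _)
  · refine le_trans ?_ (le_max_right _ _)
    have h4 := Ii_le hh x hr
    have h5 : 0 ≤ ∫ y, ‖h y‖ := integral_nonneg (fun _ => norm_nonneg _)
    rw [div_le_iff₀ (by positivity)]
    have h6 : (∫ y, ‖h y‖) / (2 * r0) * (2 * r) ≥ ∫ y, ‖h y‖ := by
      rw [ge_iff_le, div_mul_eq_mul_div, le_div_iff₀ (by positivity)]
      nlinarith
    nlinarith [abs_nonneg (h x)]

/-- the kernel -/
noncomputable def ker (R v : ℝ) : ℝ := R / (1 + (R * v) ^ 2)

lemma ker_pos {R : ℝ} (hR : 0 < R) (v : ℝ) : 0 < ker R v := by unfold ker; positivity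

lemma ker_le {R : ℝ} (hR : 0 < R) (v : ℝ) : ker R v ≤ R := by
  unfold ker
  apply div_le_self hR.le
  nlinarith [sq_nonneg (R * v)]

lemma ker_cont {R : ℝ} : Continuous (ker R) := by
  unfold ker
  apply Continuous.div continuous_const (by fun_prop)
  intro v
  positivity

lemma ker_dyadic {R : ℝ} (hR : 0 < R) (v : ℝ) :
    ENNReal.ofReal (ker R v) ≤
      ∑' k : ℕ, (Metric.closedBall (0 : ℝ) (2 ^ k / R)).indicator
        (fun _ => ENNReal.ofReal (4 * R * (1 / 4) ^ k)) v := by
  classical
  have hex : ∃ k : ℕ, |v| ≤ 2 ^ k / R := by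
    obtain ⟨k, hk⟩ := pow_unbounded_of_one_lt (|v| * R) (one_lt_two)
    exact ⟨k, by rw [le_div_iff₀ hR]; exact hk.le⟩
  set k := Nat.find hex with hk
  have hk1 : |v| ≤ 2 ^ k / R := Nat.find_spec hex
  have hle : ENNReal.ofReal (ker R v) ≤ ENNReal.ofReal (4 * R * (1 / 4) ^ k) := by
    apply ENNReal.ofReal_le_ofReal
    rcases Nat.eq_zero_or_pos k with h0 | hpos
    · rw [h0]
      have := ker_le hR v
      simp only [pow_zero, mul_one]
      linarith
    · have hmin := Nat.find_min hex (m := k - 1) (by rw [← hk]; omega)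
      rw [not_le] at hmin
      have hk4 : ((1:ℝ) / 4) ^ k = (1 / 4) / (2 ^ (k - 1)) ^ 2 := by
        rw [← pow_mul, mul_comm (k-1) 2, pow_mul]
        have : k = (k - 1) + 1 := by omega
        conv_lhs => rw [this]
        rw [pow_succ, one_div_pow]
        norm_num
        ring
      have h6 : (2 ^ (k - 1) / R) ^ 2 < v ^ 2 := by
        rw [← sq_abs v]
        gcongr
      have hp : (0:ℝ) < 2 ^ (k - 1) := by positivity
      rw [div_pow, div_lt_iff₀ (by positivity)] at h6
      unfold ker
      rw [hk4, mul_comm 4 R, mul_assoc, ← mul_div_assoc, ← mul_div_assoc,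
        div_le_div_iff₀ (by positivity) (by positivity)]
      have : (R * v) ^ 2 = v ^ 2 * R ^ 2 := by ring
      rw [this]
      nlinarith [sq_nonneg (R * v)]
  refine hle.trans ?_
  have hmem : v ∈ Metric.closedBall (0 : ℝ) (2 ^ k / R) := by
    rw [Metric.mem_closedBall, dist_zero_right]; exact hk1
  have := ENNReal.le_tsum (f := fun k : ℕ => (Metric.closedBall (0 : ℝ) (2 ^ k / R)).indicator
        (fun _ => ENNReal.ofReal (4 * R * (1 / 4) ^ k)) v) k
  simp only [indicator_of_mem hmem] at this
  exact this

/-- integrability of the kernel -/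
lemma ker_integrable {R : ℝ} (hR : 0 < R) : Integrable (ker R) := by
  have h1 := integrable_inv_one_add_sq.comp_mul_left' hR.ne'
  have h2 := h1.const_mul R
  refine h2.congr (Eventually.of_forall fun v => ?_)
  simp only [ker]
  rw [div_eq_mul_inv]

lemma D_lint {h : ℝ → ℝ} (hh : Integrable h) (hm : Measurable h) (x : ℝ) {R : ℝ} (hR : 0 < R) :
    ∫⁻ u, ENNReal.ofReal (ker R (x - u) * ‖h u - h x‖) ≤
      ∑' k : ℕ, ENNReal.ofReal (4 * R * (1 / 4) ^ k * Ii h x (2 ^ k / R)) := by
  calc ∫⁻ u, ENNReal.ofReal (ker R (x - u) * ‖h u - h x‖)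
      ≤ ∫⁻ u, ∑' k : ℕ, (Metric.closedBall x (2 ^ k / R)).indicator
        (fun u => ENNReal.ofReal (4 * R * (1 / 4) ^ k) * ENNReal.ofReal ‖h u - h x‖) u := by
        apply lintegral_mono
        intro u
        beta_reduce
        rw [ENNReal.ofReal_mul (ker_pos hR _).le]
        calc ENNReal.ofReal (ker R (x - u)) * ENNReal.ofReal ‖h u - h x‖
            ≤ (∑' k : ℕ, (Metric.closedBall (0 : ℝ) (2 ^ k / R)).indicator
              (fun _ => ENNReal.ofReal (4 * R * (1 / 4) ^ k)) (x - u)) *
                ENNReal.ofReal ‖h u - h x‖ := by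
              gcongr
              exact ker_dyadic hR (x - u)
          _ = _ := by
              rw [← ENNReal.tsum_mul_right]
              congr 1
              ext k
              by_cases hu : u ∈ Metric.closedBall x (2 ^ k / R)
              · rw [indicator_of_mem hu, indicator_of_mem]
                rw [Metric.mem_closedBall, dist_zero_right]
                rwa [Metric.mem_closedBall, dist_comm, dist_eq_norm] at hu
              · rw [indicator_of_notMem hu, indicator_of_notMem, zero_mul]
                rw [Metric.mem_closedBall, dist_zero_right]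
                rwa [Metric.mem_closedBall, dist_comm, dist_eq_norm] at hu
    _ = ∑' k : ℕ, ∫⁻ u in Metric.closedBall x (2 ^ k / R),
          ENNReal.ofReal (4 * R * (1 / 4) ^ k) * ENNReal.ofReal ‖h u - h x‖ := by
        rw [lintegral_tsum]
        · congr 1
          ext k
          rw [lintegral_indicator Metric.isClosed_closedBall.measurableSet]
        · intro k
          apply Measurable.aemeasurable
          apply Measurable.indicator _ Metric.isClosed_closedBall.measurableSet
          fun_prop
    _ = _ := by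
        congr 1
        ext k
        rw [lintegral_const_mul _ (by fun_prop),
          ENNReal.ofReal_mul (p := 4 * R * (1 / 4) ^ k) (by positivity)]
        congr 1
        unfold Ii
        rw [ofReal_integral_eq_lintegral_ofReal (int_sub hh x _)
          (Eventually.of_forall fun _ => norm_nonneg _)]

lemma D_integrable {h : ℝ → ℝ} (hh : Integrable h) (x : ℝ) {R : ℝ} (hR : 0 < R) :
    Integrable (fun u => ker R (x - u) * ‖h u - h x‖) := by
  have i1 : Integrable (fun u => R * ‖h u‖ + ker R (x - u) * |h x|) := by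
    apply Integrable.add (hh.norm.const_mul R)
    exact ((ker_integrable hR).comp_sub_left x).mul_const _
  apply i1.mono'
  · apply AEStronglyMeasurable.mul
    · exact (ker_cont.comp (by fun_prop)).aestronglyMeasurable
    · exact (hh.aestronglyMeasurable.sub aestronglyMeasurable_const).norm
  · filter_upwards with u
    rw [norm_mul, norm_norm, norm_eq_abs, abs_of_pos (ker_pos hR _)]
    calc ker R (x - u) * ‖h u - h x‖ ≤ ker R (x - u) * (‖h u‖ + |h x|) := by
          have := (ker_pos hR (x - u)).le
          gcongr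
          exact norm_sub_le _ _
      _ = ker R (x - u) * ‖h u‖ + ker R (x - u) * |h x| := by ring
      _ ≤ _ := by
          gcongr
          exact ker_le hR _

/-- the Poisson-type means of the oscillation tend to zero -/
lemma D_tendsto {h : ℝ → ℝ} (hh : Integrable h) (hm : Measurable h) {x : ℝ} (hx : LPt h x) :
    Tendsto (fun R : ℝ => ∫ u, ker R (x - u) * ‖h u - h x‖) atTop (𝓝 0) := by
  obtain ⟨A, hA0, hA⟩ := Ii_bdd hh hx
  set a : ℝ → ℕ → ℝ := fun R k => 8 * (1 / 2) ^ k * (Ii h x (2 ^ k / R) / (2 * (2 ^ k / R))) with ha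
  have hae : ∀ R, 0 < R → ∀ k : ℕ, 4 * R * (1 / 4) ^ k * Ii h x (2 ^ k / R) = a R k := by
    intro R hR k
    rw [ha]
    have : ((1:ℝ) / 2) ^ k = (1 / 4) ^ k * 2 ^ k := by rw [← mul_pow]; norm_num
    simp only
    rw [this]
    field_simp
    ring
  have ha0 : ∀ R, 0 < R → ∀ k : ℕ, 0 ≤ a R k := by
    intro R hR k
    rw [← hae R hR k]
    have := Ii_nonneg h x (2 ^ k / R)
    positivity
  have hab : ∀ R, 0 < R → ∀ k : ℕ, a R k ≤ 8 * (1 / 2) ^ k * A := by
    intro R hR k
    rw [ha]
    have := hA (2 ^ k / R) (by positivity)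
    simp only
    gcongr
  have hsum : Summable (fun k : ℕ => 8 * ((1:ℝ) / 2) ^ k * A) :=
    (summable_geometric_two.mul_left 8).mul_right A
  have ht : Tendsto (fun R : ℝ => ∑' k, a R k) atTop (𝓝 (∑' k : ℕ, (0:ℝ))) := by
    apply tendsto_tsum_of_dominated_convergence (bound := fun k => 8 * ((1:ℝ) / 2) ^ k * A) hsum
    · intro k
      have h1 : Tendsto (fun R : ℝ => (2:ℝ) ^ k / R) atTop (𝓝[>] 0) := by
        apply tendsto_nhdsWithin_iff.mpr
        constructor
        · exact tendsto_const_nhds.div_atTop tendsto_id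
        · filter_upwards [eventually_gt_atTop 0] with R hR
          rw [mem_Ioi]
          positivity
      have h2 := ((Ii_tendsto hx).comp h1).const_mul (8 * ((1:ℝ) / 2) ^ k)
      rw [mul_zero] at h2
      exact h2
    · filter_upwards [eventually_gt_atTop 0] with R hR k
      rw [norm_eq_abs, abs_of_nonneg (ha0 R hR k)]
      exact hab R hR k
  rw [tsum_zero] at ht
  apply squeeze_zero' _ _ ht
  · filter_upwards [eventually_gt_atTop 0] with R hR
    apply integral_nonneg
    intro u
    exact mul_nonneg (ker_pos hR _).le (norm_nonneg _)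
  · filter_upwards [eventually_gt_atTop 0] with R hR
    have h1 := D_lint hh hm x hR
    simp only [hae R hR] at h1
    have hs : Summable (a R) := Summable.of_nonneg_of_le (ha0 R hR) (hab R hR) hsum
    rw [← ENNReal.ofReal_tsum_of_nonneg (ha0 R hR) hs,
      ← ofReal_integral_eq_lintegral_ofReal (D_integrable hh x hR)
      (Eventually.of_forall fun u => mul_nonneg (ker_pos hR _).le (norm_nonneg _)),
      ENNReal.ofReal_le_ofReal_iff (tsum_nonneg (ha0 R hR))] at h1
    exact h1

lemma ker_integral {R : ℝ} (hR : 0 < R) (x : ℝ) : ∫ u, ker R (x - u) = π := by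
  rw [integral_sub_left_eq_self (ker R) volume x]
  have h1 : ∀ v, ker R v = R * (1 + (R * v) ^ 2)⁻¹ := fun v => by
    unfold ker; rw [div_eq_mul_inv]
  simp only [h1]
  rw [integral_const_mul, Measure.integral_comp_mul_left (fun v => (1 + v ^ 2)⁻¹) R,
    integral_univ_inv_one_add_sq, abs_of_pos (by positivity), smul_eq_mul]
  field_simp

/-- convergence for kernels with quadratic decay -/
lemma conv_tendsto {h : ℝ → ℝ} (hh : Integrable h) (hm : Measurable h) {x : ℝ} (hx : LPt h x)
    {φ : ℝ → ℂ} (hφ : Measurable φ) {K : ℝ} (hK : ∀ v, ‖φ v‖ ≤ K / (1 + v ^ 2)) :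
    Tendsto (fun R : ℝ => ∫ u, (R • φ (R * (x - u))) * (h u : ℂ)) atTop
      (𝓝 ((∫ v, φ v) * (h x : ℂ))) := by
  have hK0 : 0 ≤ K := by
    have := (norm_nonneg _).trans (hK 0)
    simpa using this
  have hφi : Integrable φ := by
    apply (integrable_inv_one_add_sq.const_mul K).mono' hφ.aestronglyMeasurable
    filter_upwards with v
    rw [← div_eq_mul_inv]
    exact hK v
  have hb : ∀ R, 0 < R → ∀ u, ‖R • φ (R * (x - u))‖ ≤ K * ker R (x - u) := by
    intro R hR u
    rw [norm_smul, norm_eq_abs, abs_of_pos hR]
    unfold ker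
    calc R * ‖φ (R * (x - u))‖ ≤ R * (K / (1 + (R * (x - u)) ^ 2)) := by
          gcongr
          exact hK _
      _ = _ := by ring
  have hi1 : ∀ R, 0 < R → Integrable (fun u => (R • φ (R * (x - u))) * (h u : ℂ)) := by
    intro R hR
    apply (hh.norm.const_mul (K * R)).mono'
    · apply AEStronglyMeasurable.mul
      · exact ((hφ.comp (by fun_prop)).const_smul R).aestronglyMeasurable
      · exact (Complex.measurable_ofReal.comp hm).aestronglyMeasurable
    · filter_upwards with u
      rw [norm_mul, Complex.norm_real]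
      calc ‖R • φ (R * (x - u))‖ * ‖h u‖ ≤ (K * ker R (x - u)) * ‖h u‖ := by
            gcongr
            exact hb R hR u
        _ ≤ (K * R) * ‖h u‖ := by
            gcongr
            exact ker_le hR _
  have hi2 : ∀ R, 0 < R → Integrable (fun u => (R • φ (R * (x - u))) * (h x : ℂ)) := by
    intro R hR
    apply Integrable.mul_const
    exact ((hφi.comp_mul_left' hR.ne').comp_sub_left x).smul R
  have hint : ∀ R, 0 < R → ∫ u, (R • φ (R * (x - u))) * (h x : ℂ) = (∫ v, φ v) * (h x : ℂ) := by
    intro R hR
    rw [integral_mul_const]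
    congr 1
    rw [integral_smul, integral_sub_left_eq_self (fun v => φ (R * v)) volume x,
      Measure.integral_comp_mul_left φ R, abs_of_pos (by positivity), smul_smul,
      mul_inv_cancel₀ hR.ne', one_smul]
  rw [tendsto_iff_norm_sub_tendsto_zero]
  have h1 := (D_tendsto hh hm hx).const_mul K
  rw [mul_zero] at h1
  apply squeeze_zero' _ _ h1
  · filter_upwards with R using norm_nonneg _
  · filter_upwards [eventually_gt_atTop 0] with R hR
    rw [← hint R hR, ← integral_sub (hi1 R hR) (hi2 R hR)]
    refine (norm_integral_le_integral_norm _).trans ?_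
    rw [← integral_const_mul]
    apply integral_mono ((hi1 R hR).sub (hi2 R hR)).norm ((D_integrable hh x hR).const_mul K)
    intro u
    show ‖(R • φ (R * (x - u))) * (h u : ℂ) - (R • φ (R * (x - u))) * (h x : ℂ)‖
      ≤ K * (ker R (x - u) * ‖h u - h x‖)
    rw [← mul_sub, norm_mul, ← Complex.ofReal_sub, Complex.norm_real, ← mul_assoc]
    gcongr
    exact hb R hR u

/-- uniform bound for the Poisson-type means -/
lemma mean_bdd {h : ℝ → ℝ} (hh : Integrable h) (hm : Measurable h) (h0 : ∀ u, 0 ≤ h u) {x : ℝ}
    (hx : LPt h x) : ∃ M : ℝ, 0 ≤ M ∧ ∀ R, 0 < R → ∫ u, ker R (x - u) * h u ≤ M := by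
  have h1 := (D_tendsto hh hm hx).eventually_lt_const zero_lt_one
  obtain ⟨R0, hR0⟩ := eventually_atTop.mp h1
  set I := ∫ u, h u with hI
  have hI0 : 0 ≤ I := integral_nonneg h0
  refine ⟨max (1 + π * |h x|) (|R0| * I), le_max_of_le_left (by positivity), fun R hR => ?_⟩
  have hi : Integrable (fun u => ker R (x - u) * h u) := by
    apply (hh.norm.const_mul R).mono'
    · apply AEStronglyMeasurable.mul
      · exact (ker_cont.comp (by fun_prop)).aestronglyMeasurable
      · exact hh.aestronglyMeasurable
    · filter_upwards with u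
      rw [norm_mul, norm_eq_abs (ker _ _), abs_of_pos (ker_pos hR _)]
      gcongr
      exact ker_le hR _
  rcases lt_or_ge R R0 with h2 | h2
  · refine le_trans ?_ (le_max_right _ _)
    calc ∫ u, ker R (x - u) * h u ≤ ∫ u, R * h u := by
          apply integral_mono hi (hh.const_mul R)
          intro u
          beta_reduce
          have := h0 u
          gcongr
          exact ker_le hR _
      _ = R * I := by rw [integral_const_mul]
      _ ≤ |R0| * I := by
          gcongr
          exact h2.le.trans (le_abs_self _)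
  · refine le_trans ?_ (le_max_left _ _)
    have h3 := (hR0 R h2).le
    calc ∫ u, ker R (x - u) * h u
        ≤ ∫ u, (ker R (x - u) * ‖h u - h x‖ + ker R (x - u) * |h x|) := by
          apply integral_mono hi
          · exact (D_integrable hh x hR).add (((ker_integrable hR).comp_sub_left x).mul_const _)
          · intro u
            beta_reduce
            rw [← mul_add]
            have := (ker_pos hR (x - u)).le
            gcongr
            have h4 := le_abs_self (h u - h x)
            have h5 := le_abs_self (h x)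
            rw [norm_eq_abs]
            linarith
      _ = (∫ u, ker R (x - u) * ‖h u - h x‖) + π * |h x| := by
          rw [integral_add (D_integrable hh x hR)
            (((ker_integrable hR).comp_sub_left x).mul_const _), integral_mul_const,
            ker_integral hR]
      _ ≤ _ := by linarith

end Pool.Agent.NH64.BC
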