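import Mathlib
import Pool.Agent.NH64.BC.Aper
import Pool.Agent.NH64.BC.Leb

/-!
# Band-limited test functions
-/

set_option autoImplicit false

open MeasureTheory Set Real Filter Topology
open scoped ENNReal FourierTransform

namespace Pool.Agent.NH64.BC

open Pool.Agent.Results.MP_ddcbd8_an.SingularDensities
open Pool.Agent.NH64.DS.Mn

/-- inverse Fourier transform -/
noncomputable def ch (G : ℝ → ℂ) (y : ℝ) : ℂ := ∫ ξ, G ξ * ee (y * ξ)

lemma ch_eq (G : ℝ → ℂ) (y : ℝ) : ch G y = 𝓕 G (-y) := by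
  rw [Real.fourier_eq']
  unfold ch ee
  congr 1
  ext ξ
  rw [smul_eq_mul, mul_comm]
  have e : inner ℝ ξ (-y) = (-y) * ξ := by simp [RCLike.inner_apply]
  rw [e]
  congr 3
  push_cast
  ring

/-- size functional -/
noncomputable def NN (G : ℝ → ℂ) : ℝ := (∫ ξ, ‖G ξ‖) + ∫ ξ, ‖deriv (deriv G) ξ‖

lemma NN_nonneg (G : ℝ → ℂ) : 0 ≤ NN G := by
  unfold NN
  have h1 : 0 ≤ ∫ ξ, ‖G ξ‖ := integral_nonneg (fun _ => norm_nonneg _)
  have h2 : 0 ≤ ∫ ξ, ‖deriv (deriv G) ξ‖ := integral_nonneg (fun _ => norm_nonneg _)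
  linarith

/-- admissible functions -/
structure Adm (G : ℝ → ℂ) : Prop where
  smooth : ContDiff ℝ 2 G
  i0 : Integrable G
  i1 : Integrable (deriv G)
  i2 : Integrable (deriv (deriv G))

lemma deriv_c1 {G : ℝ → ℂ} (h : ContDiff ℝ 2 G) : ContDiff ℝ 1 (deriv G) := by
  have h2 : ContDiff ℝ (1 + 1) G := by
    have : (1 + 1 : WithTop ℕ∞) = 2 := by norm_num
    rw [this]; exact h
  exact (contDiff_succ_iff_deriv.mp h2).2.2

lemma Adm.of_compact {G : ℝ → ℂ} (h : ContDiff ℝ 2 G) (hc : HasCompactSupport G) : Adm G := by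
  have h1 := deriv_c1 h
  have h2 : Continuous (deriv (deriv G)) := h1.continuous_deriv le_rfl
  exact ⟨h, h.continuous.integrable_of_hasCompactSupport hc,
    h1.continuous.integrable_of_hasCompactSupport hc.deriv,
    h2.integrable_of_hasCompactSupport hc.deriv.deriv⟩

lemma fourier_norm_le (G : ℝ → ℂ) (x : ℝ) : ‖𝓕 G x‖ ≤ ∫ ξ, ‖G ξ‖ := by
  rw [Real.fourier_eq']
  refine (norm_integral_le_integral_norm _).trans (le_of_eq ?_)
  congr 1
  ext ξ
  rw [norm_smul]
  rw [Complex.norm_exp_ofReal_mul_I, one_mul]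

lemma fourier_dec {G : ℝ → ℂ} (hG : Adm G) (x : ℝ) : (1 + x ^ 2) * ‖𝓕 G x‖ ≤ NN G := by
  have hd1 : Differentiable ℝ G := hG.smooth.differentiable (by norm_num)
  have hd2 : Differentiable ℝ (deriv G) := (deriv_c1 hG.smooth).differentiable (by norm_num)
  have e1 := Real.fourier_deriv hG.i0 hd1 hG.i1
  have e2 := Real.fourier_deriv hG.i1 hd2 hG.i2
  have e3 : ‖𝓕 (deriv (deriv G)) x‖ = (2 * π * |x|) ^ 2 * ‖𝓕 G x‖ := by
    rw [e2]
    simp only
    rw [e1]
    simp only
    rw [norm_smul, norm_smul]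
    have : ‖(2 * (π : ℂ) * Complex.I * (x : ℂ))‖ = 2 * π * |x| := by
      simp [abs_of_pos pi_pos]
    rw [this]
    ring
  have h1 := fourier_norm_le G x
  have h2 := fourier_norm_le (deriv (deriv G)) x
  rw [e3] at h2
  have h3 : x ^ 2 ≤ (2 * π * |x|) ^ 2 := by
    rw [mul_pow, sq_abs]
    have : (1:ℝ) ≤ (2 * π) ^ 2 := by nlinarith [pi_gt_three]
    nlinarith [sq_nonneg x]
  unfold NN
  calc (1 + x ^ 2) * ‖𝓕 G x‖ ≤ (1 + (2 * π * |x|) ^ 2) * ‖𝓕 G x‖ := by gcongr
    _ = ‖𝓕 G x‖ + (2 * π * |x|) ^ 2 * ‖𝓕 G x‖ := by ring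
    _ ≤ _ := add_le_add h1 h2

lemma ch_dec {G : ℝ → ℂ} (hG : Adm G) (y : ℝ) : ‖ch G y‖ ≤ NN G * ker 1 y := by
  rw [ch_eq]
  have h := fourier_dec hG (-y)
  unfold ker
  rw [one_mul, mul_one_div, le_div_iff₀ (by positivity)]
  rw [neg_sq] at h
  linarith

lemma ch_cont {G : ℝ → ℂ} (hG : Integrable G) : Continuous (ch G) := by
  apply continuous_of_dominated (bound := fun ξ => ‖G ξ‖)
  · intro y
    exact hG.aestronglyMeasurable.mul (ee_meas.comp (by fun_prop)).aestronglyMeasurable
  · intro y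
    filter_upwards with ξ
    rw [norm_mul, ee_norm, mul_one]
  · exact hG.norm
  · filter_upwards with ξ
    have := ee_cont
    fun_prop

lemma mul_ee_integrable {G : ℝ → ℂ} (hG : Integrable G) (y : ℝ) :
    Integrable (fun ξ => G ξ * ee (y * ξ)) := by
  have hm : Measurable (fun ξ => ee (y * ξ)) := ee_meas.comp (by fun_prop)
  refine Integrable.mono' hG.norm (hG.aestronglyMeasurable.mul hm.aestronglyMeasurable) ?_
  filter_upwards with ξ
  rw [norm_mul, ee_norm, mul_one]

/-- convolution with the Bernoulli convolution on the Fourier side -/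
lemma TB_ch {β : ℝ} (hβ : 1 < β) {Φ : ℝ → ℂ} (hΦ : Integrable Φ) (y : ℝ) :
    TB β (ch Φ) y = ch (fun ξ => Φ ξ * bh β ξ) y := by
  have : Fact (1 < β) := ⟨hβ⟩
  unfold TB ch
  rw [integral_integral_swap]
  · congr 1
    ext ξ
    have h1 : ∀ u : ℝ, Φ ξ * ee ((y - u) * ξ) = Φ ξ * ee (y * ξ) * ee (-(u * ξ)) := by
      intro u
      rw [mul_assoc, ← ee_add]
      congr 2
      ring
    simp only [h1]
    rw [integral_const_mul]
    unfold bh
    ring
  · have h2 : Integrable (fun z : ℝ × ℝ => Φ z.2) ((bernoulliConv β).prod volume) := hΦ.comp_snd _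
    apply h2.norm.mono'
    · unfold Function.uncurry
      apply h2.aestronglyMeasurable.mul
      exact (ee_meas.comp (by fun_prop)).aestronglyMeasurable
    · filter_upwards with z
      unfold Function.uncurry
      rw [norm_mul, ee_norm, mul_one]

/-- the trigonometric products -/
noncomputable def AA (β : ℝ) (k : ℕ) (ξ : ℝ) : ℂ :=
  ∏ i ∈ Finset.range k, (1 + ee (-(β ^ i * ξ))) / 2

lemma AA_norm (β : ℝ) (k : ℕ) (ξ : ℝ) :
    ‖AA β k ξ‖ = ∏ i ∈ Finset.range k, |cos (π * (β ^ i * ξ))| := by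
  unfold AA
  rw [norm_prod]
  apply Finset.prod_congr rfl
  intro i _
  exact norm_one_add_ee _

lemma ee_contDiff : ContDiff ℝ 2 ee := by
  unfold ee
  apply ContDiff.cexp
  apply ContDiff.mul _ contDiff_const
  exact Complex.ofRealCLM.contDiff.comp (by fun_prop : ContDiff ℝ 2 fun x : ℝ => 2 * π * x)

lemma AA_contDiff (β : ℝ) (k : ℕ) : ContDiff ℝ 2 (AA β k) := by
  unfold AA
  apply contDiff_prod
  intro i _
  apply ContDiff.div_const
  apply contDiff_const.add
  exact ee_contDiff.comp (by fun_prop)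

/-- iterates of the transfer operator on band-limited functions -/
lemma iter_ch {β : ℝ} (G : ℝ → ℂ) (hG : Integrable G) (k : ℕ) (y : ℝ) :
    (PO β)^[k] (ch G) y = (β ^ k) • ch (fun ξ => G ξ * AA β k ξ) (β ^ k * y) := by
  induction k generalizing y with
  | zero => simp [AA]
  | succ k ih =>
    rw [Function.iterate_succ_apply', PO_apply, ih, ih]
    have hi : Integrable (fun ξ => G ξ * AA β k ξ) := by
      apply hG.norm.mono'
      · exact hG.aestronglyMeasurable.mul (AA_contDiff β k).continuous.aestronglyMeasurable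
      · filter_upwards with ξ
        rw [norm_mul, AA_norm]
        have : ∏ i ∈ Finset.range k, |cos (π * (β ^ i * ξ))| ≤ 1 :=
          Finset.prod_le_one (fun i _ => abs_nonneg _) (fun i _ => abs_cos_le_one _)
        exact mul_le_of_le_one_right (norm_nonneg _) this
    rw [← smul_add, smul_smul]
    have h1 : ch (fun ξ => G ξ * AA β k ξ) (β ^ k * (β * y))
        + ch (fun ξ => G ξ * AA β k ξ) (β ^ k * (β * y - 1))
        = (2 : ℝ) • ch (fun ξ => G ξ * AA β (k + 1) ξ) (β ^ (k + 1) * y) := by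
      unfold ch
      rw [← integral_add (mul_ee_integrable hi _) (mul_ee_integrable hi _), ← integral_smul]
      congr 1
      ext ξ
      have h2 : AA β (k + 1) ξ = AA β k ξ * ((1 + ee (-(β ^ k * ξ))) / 2) :=
        Finset.prod_range_succ _ _
      have h3 : ee (β ^ k * (β * y - 1) * ξ) = ee (β ^ (k + 1) * y * ξ) * ee (-(β ^ k * ξ)) := by
        rw [← ee_add]
        congr 1
        rw [pow_succ]
        ring
      have h4 : ee (β ^ k * (β * y) * ξ) = ee (β ^ (k + 1) * y * ξ) := by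
        congr 1
        rw [pow_succ]
        ring
      beta_reduce
      rw [h2, h3, h4, Complex.real_smul]
      push_cast
      ring
    rw [h1, smul_smul]
    congr 1
    rw [pow_succ]
    ring

/-- data of an absolutely continuous Bernoulli convolution at a Lebesgue point -/
structure Dens (β : ℝ) (h : ℝ → ℝ) : Prop where
  meas : Measurable h
  nonneg : ∀ u, 0 ≤ h u
  int : Integrable h
  supp : ∀ u, u ∉ Icc (0 : ℝ) (1 / (β - 1)) → h u = 0
  eq : bernoulliConv β = volume.withDensity (fun u => ENNReal.ofReal (h u))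

lemma Dens.integral {β : ℝ} {h : ℝ → ℝ} (hd : Dens β h) (F : ℝ → ℂ) :
    ∫ u, F u ∂(bernoulliConv β) = ∫ u, F u * (h u : ℂ) := by
  rw [hd.eq, integral_withDensity_eq_integral_toReal_smul]
  · congr 1
    ext u
    rw [ENNReal.toReal_ofReal (hd.nonneg u), Complex.real_smul]
    ring
  · exact hd.meas.ennreal_ofReal
  · filter_upwards with u using ENNReal.ofReal_lt_top

lemma Dens.integral_real {β : ℝ} {h : ℝ → ℝ} (hd : Dens β h) (F : ℝ → ℝ) :
    ∫ u, F u ∂(bernoulliConv β) = ∫ u, F u * h u := by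
  rw [hd.eq, integral_withDensity_eq_integral_toReal_smul]
  · congr 1
    ext u
    rw [ENNReal.toReal_ofReal (hd.nonneg u), smul_eq_mul]
    ring
  · exact hd.meas.ennreal_ofReal
  · filter_upwards with u using ENNReal.ofReal_lt_top

lemma Dens.bh_eq {β : ℝ} {h : ℝ → ℝ} (hd : Dens β h) : bh β = 𝓕 (fun u => (h u : ℂ)) := by
  ext ξ
  unfold bh
  rw [hd.integral, Real.fourier_eq']
  congr 1
  ext u
  rw [smul_eq_mul]
  congr 1
  have e : inner ℝ u ξ = ξ * u := by simp [RCLike.inner_apply]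
  rw [e]
  unfold ee
  congr 2
  push_cast
  ring

lemma Dens.bh_smooth {β : ℝ} {h : ℝ → ℝ} (hd : Dens β h) : ContDiff ℝ 2 (bh β) := by
  rw [hd.bh_eq]
  have := Real.contDiff_fourier (f := fun u => (h u : ℂ)) (N := 2) (fun n _ => by
    apply (hd.int.norm.const_mul ((1 / (β - 1)) ^ n)).mono'
    · apply AEStronglyMeasurable.mul (by fun_prop)
      exact (Complex.measurable_ofReal.comp hd.meas).norm.aestronglyMeasurable
    · filter_upwards with u
      rw [norm_mul, norm_norm, Complex.norm_real, norm_pow, norm_norm]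
      by_cases hu : u ∈ Icc (0 : ℝ) (1 / (β - 1))
      · gcongr
        rw [norm_eq_abs, abs_of_nonneg hu.1]
        exact hu.2
      · rw [hd.supp u hu]
        simp)
  exact_mod_cast this

lemma Dens.bh_zero_infty {β : ℝ} {h : ℝ → ℝ} (hd : Dens β h) :
    Tendsto (bh β) (cocompact ℝ) (𝓝 0) := by
  rw [hd.bh_eq]
  exact Real.zero_at_infty_fourier _

lemma bern_supp {β : ℝ} (hβ : 1 < β) :
    ∀ᵐ u ∂(bernoulliConv β), u ∈ Icc (0 : ℝ) (1 / (β - 1)) := by
  unfold bernoulliConv
  refine (ae_map_iff (continuous_expansion hβ).measurable.aemeasurable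
    (p := fun u => u ∈ Icc (0 : ℝ) (1 / (β - 1))) measurableSet_Icc).mpr ?_
  filter_upwards with a using expansion_mem hβ a

/-- comparison of the kernel with its smoothing -/
lemma ker_le_TB {β : ℝ} (hβ : 1 < β) {lam : ℝ} (h0 : 0 < lam) (h1 : lam ≤ 1) (y : ℝ) :
    ker lam y ≤ (2 + 2 * (1 / (β - 1)) ^ 2) * TB β (ker lam) y := by
  have : Fact (1 < β) := ⟨hβ⟩
  set c := 1 / (β - 1) with hc
  have hK : 0 < 2 + 2 * c ^ 2 := by positivity
  unfold TB
  rw [← integral_const_mul]
  calc ker lam y = ∫ _u, ker lam y ∂(bernoulliConv β) := by simp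
    _ ≤ _ := by
      apply integral_mono_ae (integrable_const _)
      · apply Integrable.const_mul
        apply integrable_bdd (C := lam) (ker_cont.measurable.comp (by fun_prop))
        intro u
        rw [Function.comp, norm_eq_abs, abs_of_pos (ker_pos h0 _)]
        exact ker_le h0 _
      · filter_upwards [bern_supp hβ] with u hu
        unfold ker
        rw [mul_div_assoc', div_le_div_iff₀ (by positivity) (by positivity)]
        have h2 : (lam * (y - u)) ^ 2 ≤ 2 * (lam * y) ^ 2 + 2 * c ^ 2 := by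
          have h3 : (lam * u) ^ 2 ≤ c ^ 2 := by
            have : lam * u ≤ c := by
              calc lam * u ≤ 1 * c := by
                    have := hu.1
                    gcongr
                    exact hu.2
                _ = c := one_mul c
            have h4 : 0 ≤ lam * u := mul_nonneg h0.le hu.1
            gcongr
          nlinarith [sq_nonneg (lam * y + lam * u)]
        have h5 : 0 ≤ (lam * y) ^ 2 := sq_nonneg _
        have h6 : 1 + (lam * (y - u)) ^ 2 ≤ (2 + 2 * c ^ 2) * (1 + (lam * y) ^ 2) := by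
          nlinarith [sq_nonneg c]
        nlinarith

/-- the basic bound at a Lebesgue point -/
lemma basic_bound {β : ℝ} (hβ : 1 < β) {h : ℝ → ℝ} (hd : Dens β h) {x : ℝ} (hx : LPt h x) :
    ∃ C : ℝ, 0 ≤ C ∧ ∀ (lam K : ℝ) (F : ℝ → ℂ), 0 < lam → lam ≤ 1 → 0 ≤ K →
      (∀ y, ‖F y‖ ≤ K * ker lam y) → ∀ n : ℕ, ‖(PO β)^[n] F x‖ ≤ K * C := by
  obtain ⟨M, hM0, hM⟩ := mean_bdd hd.int hd.meas hd.nonneg hx
  refine ⟨(2 + 2 * (1 / (β - 1)) ^ 2) * M, by positivity, ?_⟩
  intro lam K F h0 h1 hK hF n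
  have hβ0 : 0 < β := by linarith
  set D := 2 + 2 * (1 / (β - 1)) ^ 2 with hD
  have hDp : 0 ≤ D := by positivity
  calc ‖(PO β)^[n] F x‖ ≤ (PO β)^[n] (fun z => ‖F z‖) x := iter_norm hβ0 F n x
    _ ≤ (PO β)^[n] (fun z => (K * D) • TB β (ker lam) z) x := by
        apply iter_mono hβ0
        intro y
        calc ‖F y‖ ≤ K * ker lam y := hF y
          _ ≤ K * (D * TB β (ker lam) y) := by
              gcongr
              exact ker_le_TB hβ h0 h1 y
          _ = _ := by rw [smul_eq_mul]; ring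
    _ = (K * D) * ∫ u, ker (lam * β ^ n) (x - u) * h u := by
        rw [iter_smul, iter_TB hβ (ker_cont.measurable) (C := lam) (fun v => by
          rw [norm_eq_abs, abs_of_pos (ker_pos h0 _)]; exact ker_le h0 _), smul_eq_mul]
        congr 1
        unfold TB
        rw [hd.integral_real]
        congr 1
        ext u
        congr 1
        beta_reduce
        unfold ker
        rw [smul_eq_mul]
        have : lam * β ^ n * (x - u) = lam * (β ^ n * (x - u)) := by ring
        rw [this]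
        ring
    _ ≤ (K * D) * M := by
        gcongr
        exact hM _ (by positivity)
    _ = _ := by ring

end Pool.Agent.NH64.BC
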