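import Mathlib
import Pool.Agent.NH64.BC.Freq

/-!
# Convergence on band-limited test functions
-/

set_option autoImplicit false

open MeasureTheory Set Real Filter Topology
open scoped ENNReal FourierTransform

namespace Pool.Agent.NH64.BC

open Pool.Agent.Results.MP_ddcbd8_an.SingularDensities
open Pool.Agent.NH64.DS.Mn

lemma iter_addf {E : Type*} [AddCommGroup E] [Module ℝ E] (β : ℝ) (g1 g2 : ℝ → E) (n : ℕ) (y : ℝ) :
    (PO β)^[n] (fun z => g1 z + g2 z) y = (PO β)^[n] g1 y + (PO β)^[n] g2 y := by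
  induction n generalizing y with
  | zero => rfl
  | succ n ih =>
    rw [Function.iterate_succ_apply', Function.iterate_succ_apply', Function.iterate_succ_apply',
      PO_apply, PO_apply, PO_apply, ih, ih, ← smul_add]
    congr 1
    abel

lemma ch_integral {Φ : ℝ → ℂ} (hΦ : Adm Φ) : ∫ v, ch Φ v = Φ 0 := by
  have h1 : Integrable (𝓕 Φ) := by
    apply (integrable_inv_one_add_sq.const_mul (NN Φ)).mono'
    · have : 𝓕 Φ = fun x => ch Φ (-x) := by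
        ext x; rw [ch_eq, neg_neg]
      rw [this]
      exact ((ch_cont hΦ.i0).comp continuous_neg).aestronglyMeasurable
    · filter_upwards with x
      rw [← div_eq_mul_inv, le_div_iff₀ (by positivity)]
      have := fourier_dec hΦ x
      linarith
  have h2 := hΦ.i0.fourierInv_fourier_eq h1 (v := 0) hΦ.smooth.continuous.continuousAt
  rw [Real.fourierInv_eq'] at h2
  simp only [inner_zero_right, mul_zero, Complex.ofReal_zero, zero_mul, Complex.exp_zero,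
    one_smul] at h2
  rw [← h2, ← integral_neg_eq_self (𝓕 Φ)]
  congr 1
  ext v
  exact ch_eq Φ v

/-- convergence when the spectrum avoids the zeros of the characteristic function -/
lemma base_case {β : ℝ} (hβ : 1 < β) {h : ℝ → ℝ} (hd : Dens β h) {x : ℝ} (hx : LPt h x)
    {G : ℝ → ℂ} (hG : ContDiff ℝ 2 G) (hGc : HasCompactSupport G)
    (hz : ∀ ξ, bh β ξ = 0 → G =ᶠ[𝓝 ξ] 0) :
    Tendsto (fun n : ℕ => (PO β)^[n] (ch G) x) atTop (𝓝 (G 0 * (h x : ℂ))) := by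
  set Φ : ℝ → ℂ := fun ξ => G ξ / bh β ξ with hΦ
  have hΦs : ContDiff ℝ 2 Φ := by
    rw [contDiff_iff_contDiffAt]
    intro ξ
    by_cases h0 : bh β ξ = 0
    · have h1 : Φ =ᶠ[𝓝 ξ] (fun _ => (0 : ℂ)) := by
        filter_upwards [hz ξ h0] with y hy
        rw [hΦ]
        simp only
        rw [hy]
        simp
      exact contDiffAt_const.congr_of_eventuallyEq h1
    · have h1 : Φ = fun ξ => G ξ * (bh β ξ)⁻¹ := by ext ξ; rw [hΦ]; simp only [div_eq_mul_inv]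
      rw [h1]
      exact hG.contDiffAt.mul (hd.bh_smooth.contDiffAt.inv h0)
  have hΦc : HasCompactSupport Φ := by
    have : Φ = fun ξ => G ξ * (bh β ξ)⁻¹ := by ext ξ; rw [hΦ]; simp only [div_eq_mul_inv]
    rw [this]
    exact hGc.mul_right
  have hΦa : Adm Φ := Adm.of_compact hΦs hΦc
  have hprod : (fun ξ => Φ ξ * bh β ξ) = G := by
    ext ξ
    rw [hΦ]
    by_cases h0 : bh β ξ = 0
    · have h1 : G ξ = 0 := (hz ξ h0).self_of_nhds
      simp [h1]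
    · simp only
      rw [div_mul_cancel₀ _ h0]
  have hTB : TB β (ch Φ) = ch G := by
    ext y
    rw [TB_ch hβ hΦa.i0, hprod]
  have hb : ∀ v, ‖ch Φ v‖ ≤ NN Φ / (1 + v ^ 2) := by
    intro v
    have := ch_dec hΦa v
    unfold ker at this
    rw [one_mul, mul_one_div] at this
    exact this
  have hmeas : Measurable (ch Φ) := (ch_cont hΦa.i0).measurable
  have h1 := conv_tendsto hd.int hd.meas hx hmeas hb
  rw [ch_integral hΦa] at h1
  have h2 : Φ 0 = G 0 := by rw [hΦ]; simp [bh_zero hβ]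
  rw [h2] at h1
  have h3 := h1.comp (tendsto_pow_atTop_atTop_of_one_lt hβ)
  refine h3.congr (fun n => ?_)
  rw [← hTB, iter_TB hβ hmeas (C := NN Φ) (fun v => (hb v).trans
    (div_le_self (NN_nonneg Φ) (by nlinarith [sq_nonneg v])))]
  unfold TB
  rw [hd.integral]
  rfl

/-- the fixed cutoff function -/
noncomputable def cut : ContDiffBump (0 : ℝ) := ⟨1 / 2, 1, by norm_num, by norm_num⟩

/-- complex-valued cutoff -/
noncomputable def cu (ξ : ℝ) : ℂ := ((cut ξ : ℝ) : ℂ)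

lemma cu_smooth : ContDiff ℝ 2 cu := by
  unfold cu
  exact Complex.ofRealCLM.contDiff.comp (cut.contDiff)

lemma cu_norm (ξ : ℝ) : ‖cu ξ‖ ≤ 1 := by
  unfold cu
  rw [Complex.norm_real, norm_eq_abs, abs_of_nonneg cut.nonneg]
  exact cut.le_one

lemma cu_zero {ξ : ℝ} (h : 1 ≤ |ξ|) : cu ξ = 0 := by
  unfold cu
  rw [cut.zero_of_le_dist (by simpa [cut] using h)]
  simp

lemma cu_one {ξ : ℝ} (h : |ξ| ≤ 1 / 2) : cu ξ = 1 := by
  unfold cu
  rw [cut.one_of_mem_closedBall (by simpa [cut] using h)]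
  simp

lemma cu_compact : HasCompactSupport cu := by
  apply HasCompactSupport.intro (isCompact_Icc (a := (-1 : ℝ)) (b := 1))
  intro x hx
  apply cu_zero
  by_contra h
  push Not at h
  rw [abs_lt] at h
  exact hx ⟨h.1.le, h.2.le⟩

lemma cu_deriv_zero {ξ : ℝ} (h : 1 < |ξ|) : deriv cu ξ = 0 := by
  have h1 : cu =ᶠ[𝓝 ξ] (fun _ => (0 : ℂ)) := by
    have : ∀ᶠ y in 𝓝 ξ, 1 < |y| := (continuous_abs.tendsto ξ).eventually_const_lt h
    filter_upwards [this] with y hy using cu_zero hy.le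
  rw [h1.deriv_eq]
  simp

/-- a compactly supported continuous function is bounded -/
lemma bdd_of_compact {F : ℝ → ℂ} (hF : Continuous F) (hc : HasCompactSupport F) :
    ∃ B : ℝ, 0 ≤ B ∧ ∀ x, ‖F x‖ ≤ B := by
  obtain ⟨B, hB⟩ := hF.bounded_above_of_compact_support hc
  exact ⟨max B 0, le_max_right _ _, fun x => (hB x).trans (le_max_left _ _)⟩

/-- estimate for the size of a rescaled localised function -/
lemma NN_local {H : ℝ → ℂ} (hH : ContDiff ℝ 2 H) (hHc : HasCompactSupport H) (ξ0 : ℝ) :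
    ∃ B : ℝ, 0 ≤ B ∧ ∀ η : ℝ, 0 < η → η ≤ 1 →
      NN (fun ζ => H (ξ0 + η * ζ) * cu ζ) ≤ ‖H ξ0‖ * NN cu + B * η := by
  have hH1 := deriv_c1 hH
  obtain ⟨B1, hB10, hB1⟩ := bdd_of_compact hH1.continuous hHc.deriv
  obtain ⟨B2, hB20, hB2⟩ := bdd_of_compact (hH1.continuous_deriv le_rfl) hHc.deriv.deriv
  have ha := Adm.of_compact cu_smooth cu_compact
  have hNc := NN_nonneg cu
  set I0 := ∫ ζ, ‖cu ζ‖ with hI0
  set I1 := ∫ ζ, ‖deriv cu ζ‖ with hI1
  set I2 := ∫ ζ, ‖deriv (deriv cu) ζ‖ with hI2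
  have hI0n : 0 ≤ I0 := integral_nonneg (fun _ => norm_nonneg _)
  have hI1n : 0 ≤ I1 := integral_nonneg (fun _ => norm_nonneg _)
  have hI2n : 0 ≤ I2 := integral_nonneg (fun _ => norm_nonneg _)
  refine ⟨B1 * NN cu + B2 * I0 + 2 * B1 * I1, by positivity, ?_⟩
  intro η hη0 hη1
  have hHd : Differentiable ℝ H := hH.differentiable (by norm_num)
  have hHd1 : Differentiable ℝ (deriv H) := hH1.differentiable (by norm_num)
  have hcd : Differentiable ℝ cu := cu_smooth.differentiable (by norm_num)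
  have hcd1 : Differentiable ℝ (deriv cu) := (deriv_c1 cu_smooth).differentiable (by norm_num)
  have hcomp : ∀ (F : ℝ → ℂ), Differentiable ℝ F → ∀ ζ, HasDerivAt (fun ζ => F (ξ0 + η * ζ))
      ((η : ℂ) * deriv F (ξ0 + η * ζ)) ζ := by
    intro F hF ζ
    have h1 : HasDerivAt (fun ζ : ℝ => ξ0 + η * ζ) η ζ := by
      simpa using ((hasDerivAt_id ζ).const_mul η).const_add ξ0
    refine ((hF (ξ0 + η * ζ)).hasDerivAt.scomp ζ h1).congr_deriv ?_
    rw [Complex.real_smul]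
  have hΨ1 : ∀ ζ, HasDerivAt (fun ζ => H (ξ0 + η * ζ) * cu ζ)
      ((η : ℂ) * deriv H (ξ0 + η * ζ) * cu ζ + H (ξ0 + η * ζ) * deriv cu ζ) ζ := fun ζ =>
    (hcomp H hHd ζ).mul (hcd ζ).hasDerivAt
  have hΨd : deriv (fun ζ => H (ξ0 + η * ζ) * cu ζ) = fun ζ =>
      (η : ℂ) * deriv H (ξ0 + η * ζ) * cu ζ + H (ξ0 + η * ζ) * deriv cu ζ := by
    ext ζ; exact (hΨ1 ζ).deriv
  have hΨ2 : ∀ ζ, HasDerivAt (fun ζ =>
      (η : ℂ) * deriv H (ξ0 + η * ζ) * cu ζ + H (ξ0 + η * ζ) * deriv cu ζ)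
      ((η : ℂ) * ((η : ℂ) * deriv (deriv H) (ξ0 + η * ζ)) * cu ζ
        + (η : ℂ) * deriv H (ξ0 + η * ζ) * deriv cu ζ
        + ((η : ℂ) * deriv H (ξ0 + η * ζ) * deriv cu ζ
          + H (ξ0 + η * ζ) * deriv (deriv cu) ζ)) ζ := fun ζ =>
    (((hcomp (deriv H) hHd1 ζ).const_mul (η : ℂ)).mul (hcd ζ).hasDerivAt).add
      ((hcomp H hHd ζ).mul (hcd1 ζ).hasDerivAt)
  have hηn : ‖(η : ℂ)‖ = η := by rw [Complex.norm_real, norm_eq_abs, abs_of_pos hη0]
  -- variation of H on the support of the cutoff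
  have hvar : ∀ ζ, |ζ| ≤ 1 → ‖H (ξ0 + η * ζ)‖ ≤ ‖H ξ0‖ + B1 * η := by
    intro ζ hζ
    have h1 := Convex.norm_image_sub_le_of_norm_deriv_le (f := H) (s := univ) (C := B1)
      (x := ξ0) (y := ξ0 + η * ζ) (fun y _ => hHd y) (fun y _ => hB1 y) convex_univ
      (mem_univ _) (mem_univ _)
    rw [add_sub_cancel_left, norm_mul, norm_eq_abs, norm_eq_abs, abs_of_pos hη0] at h1
    have h2 : ‖H (ξ0 + η * ζ)‖ ≤ ‖H ξ0‖ + ‖H (ξ0 + η * ζ) - H ξ0‖ := by
      calc ‖H (ξ0 + η * ζ)‖ = ‖H ξ0 + (H (ξ0 + η * ζ) - H ξ0)‖ := by congr 1; ring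
        _ ≤ _ := norm_add_le _ _
    have h3 : B1 * (η * |ζ|) ≤ B1 * η := by
      apply mul_le_mul_of_nonneg_left _ hB10
      nlinarith
    linarith
  have hnn : 0 ≤ ‖H ξ0‖ + B1 * η := by positivity
  have b0 : ∀ ζ, ‖H (ξ0 + η * ζ) * cu ζ‖ ≤ (‖H ξ0‖ + B1 * η) * ‖cu ζ‖ := by
    intro ζ
    rw [norm_mul]
    by_cases hζ : |ζ| ≤ 1
    · gcongr
      exact hvar ζ hζ
    · push Not at hζ
      rw [cu_zero hζ.le]
      simp
  have b2 : ∀ ζ, ‖(η : ℂ) * ((η : ℂ) * deriv (deriv H) (ξ0 + η * ζ)) * cu ζ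
        + (η : ℂ) * deriv H (ξ0 + η * ζ) * deriv cu ζ
        + ((η : ℂ) * deriv H (ξ0 + η * ζ) * deriv cu ζ
          + H (ξ0 + η * ζ) * deriv (deriv cu) ζ)‖ ≤
      η * B2 * ‖cu ζ‖ + 2 * (η * B1) * ‖deriv cu ζ‖
        + (‖H ξ0‖ + B1 * η) * ‖deriv (deriv cu) ζ‖ := by
    intro ζ
    have t1 : ‖(η : ℂ) * ((η : ℂ) * deriv (deriv H) (ξ0 + η * ζ)) * cu ζ‖ ≤ η * B2 * ‖cu ζ‖ := by
      rw [norm_mul, norm_mul, norm_mul, hηn]
      have := hB2 (ξ0 + η * ζ)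
      calc η * (η * ‖deriv (deriv H) (ξ0 + η * ζ)‖) * ‖cu ζ‖
          ≤ η * (1 * B2) * ‖cu ζ‖ := by gcongr
        _ = _ := by ring
    have t2 : ‖(η : ℂ) * deriv H (ξ0 + η * ζ) * deriv cu ζ‖ ≤ η * B1 * ‖deriv cu ζ‖ := by
      rw [norm_mul, norm_mul, hηn]
      have := hB1 (ξ0 + η * ζ)
      gcongr
    have t3 : ‖H (ξ0 + η * ζ) * deriv (deriv cu) ζ‖
        ≤ (‖H ξ0‖ + B1 * η) * ‖deriv (deriv cu) ζ‖ := by
      rw [norm_mul]
      by_cases hζ : |ζ| ≤ 1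
      · gcongr
        exact hvar ζ hζ
      · push Not at hζ
        have : deriv (deriv cu) ζ = 0 := by
          have h1 : deriv cu =ᶠ[𝓝 ζ] (fun _ => (0 : ℂ)) := by
            have : ∀ᶠ y in 𝓝 ζ, 1 < |y| := (continuous_abs.tendsto ζ).eventually_const_lt hζ
            filter_upwards [this] with y hy using cu_deriv_zero hy
          rw [h1.deriv_eq]
          simp
        rw [this]
        simp
    calc _ ≤ ‖(η : ℂ) * ((η : ℂ) * deriv (deriv H) (ξ0 + η * ζ)) * cu ζ‖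
          + ‖(η : ℂ) * deriv H (ξ0 + η * ζ) * deriv cu ζ‖
          + (‖(η : ℂ) * deriv H (ξ0 + η * ζ) * deriv cu ζ‖
          + ‖H (ξ0 + η * ζ) * deriv (deriv cu) ζ‖) :=
          (norm_add_le _ _).trans (add_le_add (norm_add_le _ _) (norm_add_le _ _))
      _ ≤ _ := by linarith
  have c0 : ∫ ζ, ‖H (ξ0 + η * ζ) * cu ζ‖ ≤ (‖H ξ0‖ + B1 * η) * I0 := by
    rw [hI0, ← integral_const_mul]
    apply integral_mono_of_nonneg (Eventually.of_forall fun _ => norm_nonneg _)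
      (ha.i0.norm.const_mul _)
    filter_upwards with ζ using b0 ζ
  have c2 : ∫ ζ, ‖deriv (deriv (fun ζ => H (ξ0 + η * ζ) * cu ζ)) ζ‖ ≤
      η * B2 * I0 + 2 * (η * B1) * I1 + (‖H ξ0‖ + B1 * η) * I2 := by
    rw [hΨd]
    have i0 : Integrable (fun ζ => η * B2 * ‖cu ζ‖) := ha.i0.norm.const_mul _
    have i1 : Integrable (fun ζ => 2 * (η * B1) * ‖deriv cu ζ‖) := ha.i1.norm.const_mul _
    have i2 : Integrable (fun ζ => (‖H ξ0‖ + B1 * η) * ‖deriv (deriv cu) ζ‖) :=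
      ha.i2.norm.const_mul _
    have i01 : Integrable (fun ζ => η * B2 * ‖cu ζ‖ + 2 * (η * B1) * ‖deriv cu ζ‖) := i0.add i1
    rw [hI0, hI1, hI2, ← integral_const_mul, ← integral_const_mul, ← integral_const_mul,
      ← integral_add i0 i1, ← integral_add i01 i2]
    apply integral_mono_of_nonneg (Eventually.of_forall fun _ => norm_nonneg _) (i01.add i2)
    filter_upwards with ζ
    rw [(hΨ2 ζ).deriv]
    exact b2 ζ
  have hNN : NN cu = I0 + I2 := rfl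
  unfold NN at hNN ⊢
  rw [hNN]
  calc _ ≤ (‖H ξ0‖ + B1 * η) * I0 + (η * B2 * I0 + 2 * (η * B1) * I1 + (‖H ξ0‖ + B1 * η) * I2) :=
        add_le_add c0 c2
    _ = _ := by ring

/-- localised functions -/
noncomputable def loc (G : ℝ → ℂ) (ξ0 η : ℝ) (ξ : ℝ) : ℂ := G ξ * cu ((ξ - ξ0) / η)

lemma loc_smooth {G : ℝ → ℂ} (hG : ContDiff ℝ 2 G) (ξ0 η : ℝ) : ContDiff ℝ 2 (loc G ξ0 η) := by
  unfold loc
  exact hG.mul (cu_smooth.comp (by fun_prop))

lemma loc_compact {G : ℝ → ℂ} (hG : HasCompactSupport G) (ξ0 η : ℝ) :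
    HasCompactSupport (loc G ξ0 η) := hG.mul_right

/-- change of variables for localised functions -/
lemma ch_loc (H : ℝ → ℂ) (ξ0 : ℝ) {η : ℝ} (hη : 0 < η) (y : ℝ) :
    ch (loc H ξ0 η) y = (η : ℂ) * ee (y * ξ0) * ch (fun ζ => H (ξ0 + η * ζ) * cu ζ) (η * y) := by
  unfold ch loc
  set F : ℝ → ℂ := fun ξ => H ξ * cu ((ξ - ξ0) / η) * ee (y * ξ) with hF
  have h1 : ∫ ξ, F ξ = ∫ ζ, F (ξ0 + ζ) := (integral_add_left_eq_self F ξ0).symm
  have h2 : ∫ ζ, F (ξ0 + η * ζ) = |η⁻¹| • ∫ ζ, F (ξ0 + ζ) :=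
    Measure.integral_comp_mul_left (fun ζ => F (ξ0 + ζ)) η
  rw [abs_of_pos (by positivity)] at h2
  have h3 : ∫ ξ, F ξ = (η : ℂ) * ∫ ζ, F (ξ0 + η * ζ) := by
    rw [h2, h1, Complex.real_smul]
    push_cast
    have : (η : ℂ) ≠ 0 := by exact_mod_cast hη.ne'
    field_simp
  rw [h3, mul_assoc]
  congr 1
  rw [← integral_const_mul]
  congr 1
  ext ζ
  rw [hF]
  have e1 : (ξ0 + η * ζ - ξ0) / η = ζ := by field_simp; ring
  have e2 : ee (y * (ξ0 + η * ζ)) = ee (y * ξ0) * ee (η * y * ζ) := by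
    rw [← ee_add]; congr 1; ring
  simp only [e1, e2]
  ring

/-- narrow spectral windows have a negligible contribution -/
lemma narrow {β : ℝ} (hβ : 1 < β) (hβ2 : β < 2) {h : ℝ → ℝ} (hd : Dens β h) {x : ℝ}
    (hx : LPt h x) {G : ℝ → ℂ} (hG : ContDiff ℝ 2 G) (hGc : HasCompactSupport G) {ξ0 : ℝ}
    (hξ0 : ξ0 ≠ 0) {ε : ℝ} (hε : 0 < ε) :
    ∃ η0 : ℝ, 0 < η0 ∧ ∀ η : ℝ, 0 < η → η < η0 → ∃ n0 : ℕ, ∀ n ≥ n0,
      ‖(PO β)^[n] (ch (loc G ξ0 η)) x‖ ≤ ε := by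
  have hβ0 : 0 < β := by linarith
  obtain ⟨C, hC0, hC⟩ := basic_bound hβ hd hx
  -- choice of k
  have ht := aper hβ hβ2 hd.bh_zero_infty hξ0
  have ht2 : Tendsto (fun k : ℕ => ‖G ξ0‖ * (∏ i ∈ Finset.range k, |cos (π * (β ^ i * ξ0))|)
      * NN cu * C) atTop (𝓝 0) := by
    have := ((ht.const_mul ‖G ξ0‖).mul_const (NN cu)).mul_const C
    simpa using this
  obtain ⟨k, hk⟩ := (ht2.eventually_lt_const (half_pos hε)).exists
  set H : ℝ → ℂ := fun ξ => G ξ * AA β k ξ with hH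
  have hHs : ContDiff ℝ 2 H := hG.mul (AA_contDiff β k)
  have hHc : HasCompactSupport H := hGc.mul_right
  obtain ⟨B, hB0, hB⟩ := NN_local hHs hHc ξ0
  have hβk : 0 < β ^ k := by positivity
  refine ⟨min (min 1 (β ^ k)⁻¹) (ε / 2 / (B * C + 1)), by positivity, ?_⟩
  intro η hη0 hη
  have hη1 : η ≤ 1 := (hη.trans_le ((min_le_left _ _).trans (min_le_left _ _))).le
  have hη2 : η ≤ (β ^ k)⁻¹ := (hη.trans_le ((min_le_left _ _).trans (min_le_right _ _))).le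
  have hη3 : η < ε / 2 / (B * C + 1) := hη.trans_le (min_le_right _ _)
  refine ⟨k, fun n hn => ?_⟩
  obtain ⟨m, rfl⟩ : ∃ m, n = m + k := ⟨n - k, by omega⟩
  rw [iter_add]
  have hloc : Integrable (loc G ξ0 η) :=
    (Adm.of_compact (loc_smooth hG ξ0 η) (loc_compact hGc ξ0 η)).i0
  set Ψ : ℝ → ℂ := fun ζ => H (ξ0 + η * ζ) * cu ζ with hΨ
  have hΨa : Adm Ψ := by
    apply Adm.of_compact
    · exact (hHs.comp (by fun_prop)).mul cu_smooth
    · exact cu_compact.mul_left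
  have hpt : ∀ y, ‖(PO β)^[k] (ch (loc G ξ0 η)) y‖ ≤ NN Ψ * ker (η * β ^ k) y := by
    intro y
    rw [iter_ch _ hloc]
    have e1 : (fun ξ => loc G ξ0 η ξ * AA β k ξ) = loc H ξ0 η := by
      ext ξ
      unfold loc
      rw [hH]
      ring
    rw [e1, ch_loc H ξ0 hη0, norm_smul, norm_mul, norm_mul, ee_norm, Complex.norm_real,
      norm_eq_abs, norm_eq_abs, abs_of_pos hβk, abs_of_pos hη0, mul_one]
    have h1 := ch_dec hΨa (η * (β ^ k * y))
    calc β ^ k * (η * ‖ch Ψ (η * (β ^ k * y))‖)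
        ≤ β ^ k * (η * (NN Ψ * ker 1 (η * (β ^ k * y)))) := by gcongr
      _ = _ := by
        unfold ker
        have : η * β ^ k * y = 1 * (η * (β ^ k * y)) := by ring
        rw [this]
        ring
  have h2 := hC (η * β ^ k) (NN Ψ) _ (by positivity)
    (by
      calc η * β ^ k ≤ (β ^ k)⁻¹ * β ^ k := by gcongr
        _ = 1 := inv_mul_cancel₀ hβk.ne') (NN_nonneg Ψ) hpt m
  refine h2.trans ?_
  have h3 := hB η hη0 hη1
  have h4 : ‖H ξ0‖ = ‖G ξ0‖ * ∏ i ∈ Finset.range k, |cos (π * (β ^ i * ξ0))| := by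
    rw [hH]
    simp only
    rw [norm_mul, AA_norm]
  rw [h4] at h3
  have h5 : B * C * η ≤ ε / 2 := by
    have hBC : 0 ≤ B * C := by positivity
    have h6 : (B * C + 1) * η < ε / 2 := by
      rw [lt_div_iff₀ (by positivity)] at hη3
      linarith
    nlinarith
  calc NN Ψ * C ≤ (‖G ξ0‖ * (∏ i ∈ Finset.range k, |cos (π * (β ^ i * ξ0))|) * NN cu + B * η) * C := by
        gcongr
    _ = ‖G ξ0‖ * (∏ i ∈ Finset.range k, |cos (π * (β ^ i * ξ0))|) * NN cu * C + B * C * η := by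
        ring
    _ ≤ ε := by linarith

end Pool.Agent.NH64.BC
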