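import Mathlib
import Pool.Agent.NH64.BC.Main

/-!
# Convergence on smooth compactly supported test functions
-/

set_option autoImplicit false

open MeasureTheory Set Real Filter Topology
open scoped ENNReal FourierTransform

namespace Pool.Agent.NH64.BC

open Pool.Agent.Results.MP_ddcbd8_an.SingularDensities
open Pool.Agent.NH64.DS.Mn

lemma ch_add {G1 G2 : ℝ → ℂ} (h1 : Integrable G1) (h2 : Integrable G2) (y : ℝ) :
    ch (fun ξ => G1 ξ + G2 ξ) y = ch G1 y + ch G2 y := by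
  unfold ch
  rw [← integral_add (mul_ee_integrable h1 y) (mul_ee_integrable h2 y)]
  congr 1
  ext ξ
  ring

/-- induction over the zeros -/
lemma induct {β : ℝ} (hβ : 1 < β) (hβ2 : β < 2) {h : ℝ → ℝ} (hd : Dens β h) {x : ℝ}
    (hx : LPt h x) (Z : Finset ℝ) : 0 ∉ Z → ∀ G : ℝ → ℂ, ContDiff ℝ 2 G → HasCompactSupport G →
    (∀ ξ, bh β ξ = 0 → ξ ∈ Z ∨ G =ᶠ[𝓝 ξ] 0) →
    Tendsto (fun n : ℕ => (PO β)^[n] (ch G) x) atTop (𝓝 (G 0 * (h x : ℂ))) := by
  induction Z using Finset.induction_on with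
  | empty =>
    intro _ G hG hGc hz
    apply base_case hβ hd hx hG hGc
    intro ξ hξ
    rcases hz ξ hξ with h1 | h1
    · exact absurd h1 (Finset.notMem_empty _)
    · exact h1
  | insert z Z hzZ ih =>
    intro h0 G hG hGc hz
    have hz0 : z ≠ 0 := by
      rintro rfl
      exact h0 (Finset.mem_insert_self _ _)
    have h0Z : 0 ∉ Z := fun hh => h0 (Finset.mem_insert_of_mem hh)
    rw [Metric.tendsto_atTop]
    intro ε hε
    obtain ⟨η0, hη0, hη⟩ := narrow hβ hβ2 hd hx hG hGc hz0 (half_pos (half_pos hε))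
    set η := min (η0 / 2) (|z| / 2) with hηd
    have hzp : 0 < |z| := abs_pos.mpr hz0
    have hηp : 0 < η := by positivity
    have hηlt : η < η0 := (min_le_left _ _).trans_lt (by linarith)
    have hηz : η ≤ |z| / 2 := min_le_right _ _
    obtain ⟨n0, hn0⟩ := hη η hηp hηlt
    set G1 : ℝ → ℂ := fun ξ => G ξ - loc G z η ξ with hG1
    have hG1s : ContDiff ℝ 2 G1 := hG.sub (loc_smooth hG z η)
    have hG1c : HasCompactSupport G1 := hGc.sub (loc_compact hGc z η)
    have hloc0 : loc G z η 0 = 0 := by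
      unfold loc
      rw [cu_zero, mul_zero]
      rw [abs_div, abs_of_pos hηp, zero_sub, abs_neg, le_div_iff₀ hηp]
      linarith
    have hG10 : G1 0 = G 0 := by rw [hG1]; simp only; rw [hloc0, sub_zero]
    have hG1z : ∀ ξ, bh β ξ = 0 → ξ ∈ Z ∨ G1 =ᶠ[𝓝 ξ] 0 := by
      intro ξ hξ
      by_cases hξz : ξ = z
      · right
        subst hξz
        have h1 : ∀ᶠ y in 𝓝 ξ, |y - ξ| < η / 2 := by
          have : Metric.ball ξ (η / 2) ∈ 𝓝 ξ := Metric.ball_mem_nhds ξ (by positivity)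
          filter_upwards [this] with y hy
          rwa [Metric.mem_ball, Real.dist_eq] at hy
        filter_upwards [h1] with y hy
        rw [hG1]
        simp only [Pi.zero_apply]
        unfold loc
        rw [cu_one, mul_one, sub_self]
        rw [abs_div, abs_of_pos hηp, div_le_iff₀ hηp]
        linarith
      · rcases hz ξ hξ with h1 | h1
        · left
          rcases Finset.mem_insert.mp h1 with h2 | h2
          · exact absurd h2 hξz
          · exact h2
        · right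
          filter_upwards [h1] with y hy
          rw [hG1]
          simp only [Pi.zero_apply] at hy ⊢
          unfold loc
          rw [hy, zero_mul, sub_zero]
    have h1 := ih h0Z G1 hG1s hG1c hG1z
    rw [hG10, Metric.tendsto_atTop] at h1
    obtain ⟨n1, hn1⟩ := h1 (ε / 2) (half_pos hε)
    refine ⟨max n0 n1, fun n hn => ?_⟩
    have e1 : ch G = fun y => ch G1 y + ch (loc G z η) y := by
      ext y
      rw [← ch_add (Adm.of_compact hG1s hG1c).i0
        (Adm.of_compact (loc_smooth hG z η) (loc_compact hGc z η)).i0]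
      congr 1
      ext ξ
      rw [hG1]
      ring
    rw [e1, iter_addf, dist_eq_norm]
    have h2 := hn1 n (le_trans (le_max_right _ _) hn)
    rw [dist_eq_norm] at h2
    have h3 := hn0 n (le_trans (le_max_left _ _) hn)
    calc ‖(PO β)^[n] (ch G1) x + (PO β)^[n] (ch (loc G z η)) x - G 0 * (h x : ℂ)‖
        = ‖((PO β)^[n] (ch G1) x - G 0 * (h x : ℂ)) + (PO β)^[n] (ch (loc G z η)) x‖ := by
          congr 1; ring
      _ ≤ _ := norm_add_le _ _
      _ < ε := by linarith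

/-- convergence for all admissible spectra with compact support -/
lemma spec_conv {β : ℝ} (hβ : 1 < β) (hβ2 : β < 2) {h : ℝ → ℝ} (hd : Dens β h) {x : ℝ}
    (hx : LPt h x) {G : ℝ → ℂ} (hG : ContDiff ℝ 2 G) (hGc : HasCompactSupport G) :
    Tendsto (fun n : ℕ => (PO β)^[n] (ch G) x) atTop (𝓝 (G 0 * (h x : ℂ))) := by
  classical
  have hβ0 : 0 < β := by linarith
  obtain ⟨A, hA⟩ := hGc.isBounded.subset_closedBall 0
  obtain ⟨J, hJ⟩ := pow_unbounded_of_one_lt (2 * |A|) hβ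
  obtain ⟨L, hL⟩ := exists_nat_gt (|A| + 1)
  set Z : Finset ℝ := ((Finset.range J) ×ˢ (Finset.Icc (-(L : ℤ)) L)).image
    (fun p => β ^ p.1 * ((p.2 : ℝ) + 1 / 2)) with hZ
  apply induct hβ hβ2 hd hx Z _ G hG hGc
  · intro ξ hξ
    by_cases hm : ξ ∈ Metric.closedBall (0 : ℝ) |A|
    · left
      rw [Metric.mem_closedBall, dist_zero_right, norm_eq_abs] at hm
      obtain ⟨j, hj1, l, hl⟩ := zero_form hβ hξ
      rw [hZ, Finset.mem_image]
      refine ⟨(j, l), ?_, hl.symm⟩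
      have habs : |ξ| = β ^ j * |(l : ℝ) + 1 / 2| := by
        rw [hl, abs_mul, abs_of_pos (by positivity)]
      have hhalf : 1 / 2 ≤ |(l : ℝ) + 1 / 2| := by
        rcases le_or_gt 0 l with h1 | h1
        · have h2 : (0 : ℝ) ≤ l := by exact_mod_cast h1
          rw [abs_of_nonneg (by linarith)]
          linarith
        · have h2 : (l : ℝ) ≤ -1 := by exact_mod_cast (by omega : l ≤ -1)
          rw [abs_of_nonpos (by linarith)]
          linarith
      rw [Finset.mem_product, Finset.mem_range, Finset.mem_Icc]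
      constructor
      · by_contra hc
        push Not at hc
        simp only at hc
        have h1 : β ^ J ≤ β ^ j := pow_le_pow_right₀ hβ.le hc
        have h2 : β ^ j * (1 / 2) ≤ |ξ| := by
          rw [habs]
          gcongr
        linarith
      · have h1 : (1 : ℝ) ≤ β ^ j := one_le_pow₀ hβ.le
        have h2 : |(l : ℝ) + 1 / 2| ≤ |A| := by
          calc |(l : ℝ) + 1 / 2| = 1 * |(l : ℝ) + 1 / 2| := (one_mul _).symm
            _ ≤ β ^ j * |(l : ℝ) + 1 / 2| := by gcongr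
            _ = |ξ| := habs.symm
            _ ≤ |A| := hm
        rw [abs_le] at h2
        constructor
        · have : (-(L : ℤ) : ℝ) ≤ l := by push_cast; linarith [h2.1]
          exact_mod_cast this
        · have : (l : ℝ) ≤ (L : ℤ) := by push_cast; linarith [h2.2]
          exact_mod_cast this
    · right
      have h1 : ξ ∉ tsupport G := by
        intro h2
        apply hm
        have h3 := hA h2
        rw [Metric.mem_closedBall] at h3 ⊢
        exact h3.trans (le_abs_self _)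
      exact notMem_tsupport_iff_eventuallyEq.mp h1
  · intro h0
    rw [hZ, Finset.mem_image] at h0
    obtain ⟨p, _, hp⟩ := h0
    rcases mul_eq_zero.mp hp with h1 | h1
    · have : (0:ℝ) < β ^ p.1 := by positivity
      linarith
    · have h2 : (2 * p.2 + 1 : ℤ) = 0 := by
        have : ((2 * p.2 + 1 : ℤ) : ℝ) = 0 := by push_cast; linarith
        exact_mod_cast this
      omega

/-- the size of the high-frequency tail of a Schwartz function tends to zero -/
lemma tail_small (S : SchwartzMap ℝ ℂ) {δ : ℝ} (hδ : 0 < δ) :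
    ∃ ε : ℝ, 0 < ε ∧ Adm (fun ξ => S ξ * (1 - cu (ε * ξ))) ∧
      NN (fun ξ => S ξ * (1 - cu (ε * ξ))) < δ := by
  have hcd : Differentiable ℝ cu := cu_smooth.differentiable (by norm_num)
  have hcd1 : Differentiable ℝ (deriv cu) := (deriv_c1 cu_smooth).differentiable (by norm_num)
  obtain ⟨C1, hC10, hC1⟩ := bdd_of_compact (deriv_c1 cu_smooth).continuous cu_compact.deriv
  obtain ⟨C2, hC20, hC2⟩ := bdd_of_compact ((deriv_c1 cu_smooth).continuous_deriv le_rfl)
    cu_compact.deriv.deriv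
  set S1 : SchwartzMap ℝ ℂ := SchwartzMap.derivCLM ℝ ℂ S with hS1
  set S2 : SchwartzMap ℝ ℂ := SchwartzMap.derivCLM ℝ ℂ S1 with hS2
  have hSd : ∀ ξ, HasDerivAt (⇑S) (S1 ξ) ξ := fun ξ => S.differentiableAt.hasDerivAt
  have hS1d : ∀ ξ, HasDerivAt (⇑S1) (S2 ξ) ξ := fun ξ => S1.differentiableAt.hasDerivAt
  have hcomp : ∀ (ε : ℝ) (F : ℝ → ℂ), Differentiable ℝ F → ∀ ζ, HasDerivAt (fun ζ => F (ε * ζ))
      ((ε : ℂ) * deriv F (ε * ζ)) ζ := by
    intro ε F hF ζ
    have h1 : HasDerivAt (fun ζ : ℝ => ε * ζ) ε ζ := by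
      simpa using (hasDerivAt_id ζ).const_mul ε
    refine ((hF (ε * ζ)).hasDerivAt.scomp ζ h1).congr_deriv ?_
    rw [Complex.real_smul]
  -- derivatives
  have hd1 : ∀ (ε ξ : ℝ), HasDerivAt (fun ξ => S ξ * (1 - cu (ε * ξ)))
      (S1 ξ * (1 - cu (ε * ξ)) + S ξ * (-((ε : ℂ) * deriv cu (ε * ξ)))) ξ := fun ε ξ =>
    (hSd ξ).mul ((hcomp ε cu hcd ξ).const_sub 1)
  have hde : ∀ ε : ℝ, deriv (fun ξ => S ξ * (1 - cu (ε * ξ))) = fun ξ =>
      S1 ξ * (1 - cu (ε * ξ)) + S ξ * (-((ε : ℂ) * deriv cu (ε * ξ))) := by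
    intro ε; ext ξ; exact (hd1 ε ξ).deriv
  have hd2 : ∀ (ε ξ : ℝ), HasDerivAt (fun ξ =>
      S1 ξ * (1 - cu (ε * ξ)) + S ξ * (-((ε : ℂ) * deriv cu (ε * ξ))))
      (S2 ξ * (1 - cu (ε * ξ)) + S1 ξ * (-((ε : ℂ) * deriv cu (ε * ξ)))
        + (S1 ξ * (-((ε : ℂ) * deriv cu (ε * ξ)))
          + S ξ * (-((ε : ℂ) * ((ε : ℂ) * deriv (deriv cu) (ε * ξ)))))) ξ := fun ε ξ =>
    ((hS1d ξ).mul ((hcomp ε cu hcd ξ).const_sub 1)).add
      ((hSd ξ).mul (((hcomp ε (deriv cu) hcd1 ξ).const_mul (ε : ℂ)).neg))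
  -- uniform bounds
  have hcu1 : ∀ y, ‖1 - cu y‖ ≤ 1 := by
    intro y
    unfold cu
    rw [← Complex.ofReal_one, ← Complex.ofReal_sub, Complex.norm_real, norm_eq_abs, abs_le]
    have h1 : 0 ≤ cut y := cut.nonneg
    have h2 : cut y ≤ 1 := cut.le_one
    constructor <;> linarith
  have iS := S.integrable (μ := volume)
  have iS1 := S1.integrable (μ := volume)
  have iS2 := S2.integrable (μ := volume)
  -- admissibility
  have hadm : ∀ ε : ℝ, Adm (fun ξ => S ξ * (1 - cu (ε * ξ))) := by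
    intro ε
    have hcs : ContDiff ℝ 2 (fun ξ : ℝ => cu (ε * ξ)) := cu_smooth.comp (by fun_prop)
    have hsm : ContDiff ℝ 2 (fun ξ => S ξ * (1 - cu (ε * ξ))) :=
      (S.smooth 2).mul (contDiff_const.sub hcs)
    have c1 : Continuous (deriv (fun ξ => S ξ * (1 - cu (ε * ξ)))) := (deriv_c1 hsm).continuous
    have c2 : Continuous (deriv (deriv (fun ξ => S ξ * (1 - cu (ε * ξ))))) :=
      (deriv_c1 hsm).continuous_deriv le_rfl
    refine ⟨hsm, ?_, ?_, ?_⟩
    · apply iS.norm.mono' hsm.continuous.aestronglyMeasurable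
      filter_upwards with ξ
      rw [norm_mul]
      exact mul_le_of_le_one_right (norm_nonneg _) (hcu1 _)
    · have ib : Integrable (fun ξ => ‖S1 ξ‖ + ‖S ξ‖ * (|ε| * C1)) :=
        iS1.norm.add (iS.norm.mul_const (|ε| * C1))
      apply ib.mono' c1.aestronglyMeasurable
      filter_upwards with ξ
      rw [hde]
      refine (norm_add_le _ _).trans ?_
      rw [norm_mul, norm_mul, norm_neg, norm_mul, Complex.norm_real, norm_eq_abs]
      exact add_le_add (mul_le_of_le_one_right (norm_nonneg _) (hcu1 _))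
        (by gcongr; exact hC1 _)
    · have ib : Integrable (fun ξ => (‖S2 ξ‖ + ‖S1 ξ‖ * (|ε| * C1))
          + (‖S1 ξ‖ * (|ε| * C1) + ‖S ξ‖ * (|ε| * (|ε| * C2)))) :=
        (iS2.norm.add (iS1.norm.mul_const (|ε| * C1))).add
          ((iS1.norm.mul_const (|ε| * C1)).add (iS.norm.mul_const (|ε| * (|ε| * C2))))
      apply ib.mono' c2.aestronglyMeasurable
      filter_upwards with ξ
      rw [hde, (hd2 ε ξ).deriv]
      refine (norm_add_le _ _).trans (add_le_add ((norm_add_le _ _).trans (add_le_add ?_ ?_))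
        ((norm_add_le _ _).trans (add_le_add ?_ ?_)))
      · rw [norm_mul]
        exact mul_le_of_le_one_right (norm_nonneg _) (hcu1 _)
      · rw [norm_mul, norm_neg, norm_mul, Complex.norm_real, norm_eq_abs]
        gcongr; exact hC1 _
      · rw [norm_mul, norm_neg, norm_mul, Complex.norm_real, norm_eq_abs]
        gcongr; exact hC1 _
      · rw [norm_mul, norm_neg, norm_mul, norm_mul, Complex.norm_real, norm_eq_abs]
        gcongr; exact hC2 _
  -- limits
  have hptw : ∀ ξ : ℝ, Tendsto (fun ε : ℝ => cu (ε * ξ)) (𝓝[>] 0) (𝓝 1) := by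
    intro ξ
    have h1 : Tendsto (fun ε : ℝ => cu (ε * ξ)) (𝓝 0) (𝓝 (cu (0 * ξ))) :=
      (cu_smooth.continuous.comp (by fun_prop : Continuous fun ε : ℝ => ε * ξ)).tendsto 0
    have h2 : cu (0 * ξ) = 1 := by rw [zero_mul]; exact cu_one (by simp)
    rw [h2] at h1
    exact h1.mono_left nhdsWithin_le_nhds
  have hA : ∀ T : SchwartzMap ℝ ℂ, Tendsto (fun ε : ℝ => ∫ ξ, ‖T ξ * (1 - cu (ε * ξ))‖)
      (𝓝[>] 0) (𝓝 0) := by
    intro T
    have h1 : Tendsto (fun ε : ℝ => ∫ ξ, ‖T ξ * (1 - cu (ε * ξ))‖) (𝓝[>] 0)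
        (𝓝 (∫ _ξ : ℝ, (0 : ℝ))) := by
      apply tendsto_integral_filter_of_dominated_convergence (bound := fun ξ => ‖T ξ‖)
      · filter_upwards with ε
        apply Continuous.aestronglyMeasurable
        have := T.continuous
        have h3 : Continuous (fun ξ : ℝ => cu (ε * ξ)) := cu_smooth.continuous.comp (by fun_prop)
        fun_prop
      · filter_upwards with ε
        filter_upwards with ξ
        rw [norm_norm, norm_mul]
        exact mul_le_of_le_one_right (norm_nonneg _) (hcu1 _)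
      · exact T.integrable.norm
      · filter_upwards with ξ
        have h2 := ((hptw ξ).const_sub 1).const_mul (T ξ)
        rw [sub_self, mul_zero] at h2
        simpa using h2.norm
    rwa [integral_zero] at h1
  set I0 := ∫ ξ, ‖S ξ‖ with hI0
  set I1 := ∫ ξ, ‖S1 ξ‖ with hI1
  have hlim : Tendsto (fun ε : ℝ => (∫ ξ, ‖S ξ * (1 - cu (ε * ξ))‖) +
      ((∫ ξ, ‖S2 ξ * (1 - cu (ε * ξ))‖) + ε * (2 * C1 * I1 + |ε| * C2 * I0))) (𝓝[>] 0) (𝓝 0) := by
    have h1 : Tendsto (fun ε : ℝ => ε * (2 * C1 * I1 + |ε| * C2 * I0)) (𝓝[>] 0) (𝓝 0) := by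
      have h2 : Continuous (fun ε : ℝ => ε * (2 * C1 * I1 + |ε| * C2 * I0)) := by fun_prop
      have h3 := h2.tendsto 0
      rw [zero_mul] at h3
      exact h3.mono_left nhdsWithin_le_nhds
    have h4 := (hA S).add ((hA S2).add h1)
    simpa using h4
  obtain ⟨ε, hε1, hε2⟩ := ((hlim.eventually_lt_const hδ).and
    (self_mem_nhdsWithin : ∀ᶠ ε : ℝ in 𝓝[>] 0, ε ∈ Ioi (0:ℝ))).exists
  have hεp : 0 < ε := hε2
  refine ⟨ε, hεp, hadm ε, lt_of_le_of_lt ?_ hε1⟩
  unfold NN
  gcongr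
  rw [hde]
  have j0 : Integrable (fun ξ => ‖S2 ξ * (1 - cu (ε * ξ))‖) := by
    apply Integrable.norm
    apply iS2.norm.mono'
    · apply Continuous.aestronglyMeasurable
      have := S2.continuous
      have h3 : Continuous (fun ξ : ℝ => cu (ε * ξ)) := cu_smooth.continuous.comp (by fun_prop)
      fun_prop
    · filter_upwards with ξ
      rw [norm_mul]
      exact mul_le_of_le_one_right (norm_nonneg _) (hcu1 _)
  have j1 : Integrable (fun ξ => 2 * (ε * C1) * ‖S1 ξ‖) := iS1.norm.const_mul _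
  have j2 : Integrable (fun ξ => ε * ε * C2 * ‖S ξ‖) := iS.norm.const_mul _
  have j01 : Integrable (fun ξ => ‖S2 ξ * (1 - cu (ε * ξ))‖ + 2 * (ε * C1) * ‖S1 ξ‖) := j0.add j1
  calc ∫ ξ, ‖deriv (fun ξ => S1 ξ * (1 - cu (ε * ξ)) + S ξ * (-((ε : ℂ) * deriv cu (ε * ξ)))) ξ‖
      ≤ ∫ ξ, (‖S2 ξ * (1 - cu (ε * ξ))‖ + 2 * (ε * C1) * ‖S1 ξ‖ + ε * ε * C2 * ‖S ξ‖) := by
        have j012 : Integrable (fun ξ => ‖S2 ξ * (1 - cu (ε * ξ))‖ + 2 * (ε * C1) * ‖S1 ξ‖
          + ε * ε * C2 * ‖S ξ‖) := j01.add j2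
        apply integral_mono_of_nonneg (Eventually.of_forall fun _ => norm_nonneg _) j012
        filter_upwards with ξ
        rw [(hd2 ε ξ).deriv]
        have hεn : ‖(ε : ℂ)‖ = ε := by rw [Complex.norm_real, norm_eq_abs, abs_of_pos hεp]
        have t1 : ‖S1 ξ * (-((ε : ℂ) * deriv cu (ε * ξ)))‖ ≤ ε * C1 * ‖S1 ξ‖ := by
          rw [norm_mul, norm_neg, norm_mul, hεn, mul_comm]
          gcongr; exact hC1 _
        have t2 : ‖S ξ * (-((ε : ℂ) * ((ε : ℂ) * deriv (deriv cu) (ε * ξ))))‖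
            ≤ ε * ε * C2 * ‖S ξ‖ := by
          rw [norm_mul, norm_neg, norm_mul, norm_mul, hεn, mul_comm, ← mul_assoc]
          gcongr; exact hC2 _
        calc _ ≤ ‖S2 ξ * (1 - cu (ε * ξ))‖ + ‖S1 ξ * (-((ε : ℂ) * deriv cu (ε * ξ)))‖
              + (‖S1 ξ * (-((ε : ℂ) * deriv cu (ε * ξ)))‖
              + ‖S ξ * (-((ε : ℂ) * ((ε : ℂ) * deriv (deriv cu) (ε * ξ))))‖) :=
              (norm_add_le _ _).trans (add_le_add (norm_add_le _ _) (norm_add_le _ _))
          _ ≤ _ := by linarith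
    _ = (∫ ξ, ‖S2 ξ * (1 - cu (ε * ξ))‖) + 2 * (ε * C1) * I1 + ε * ε * C2 * I0 := by
        rw [integral_add j01 j2, integral_add j0 j1, integral_const_mul, integral_const_mul]
    _ = _ := by rw [abs_of_pos hεp]; ring

/-- convergence on smooth compactly supported test functions -/
lemma test_conv {β : ℝ} (hβ : 1 < β) (hβ2 : β < 2) {h : ℝ → ℝ} (hd : Dens β h) {x : ℝ}
    (hx : LPt h x) {F : ℝ → ℂ} (hF : ContDiff ℝ (↑(⊤ : ℕ∞)) F) (hFc : HasCompactSupport F) :
    Tendsto (fun n : ℕ => (PO β)^[n] F x) atTop (𝓝 ((∫ y, F y) * (h x : ℂ))) := by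
  obtain ⟨C, hC0, hC⟩ := basic_bound hβ hd hx
  set FS : SchwartzMap ℝ ℂ := hFc.toSchwartzMap hF with hFS
  set S : SchwartzMap ℝ ℂ := SchwartzMap.fourierTransformCLM ℂ FS with hS
  have hFSe : (⇑FS : ℝ → ℂ) = F := by ext y; rfl
  have hSe : (⇑S : ℝ → ℂ) = 𝓕 F := by
    rw [hS, ← hFSe]
    rfl
  have hS0 : S 0 = ∫ y, F y := by
    rw [hSe, Real.fourier_eq']
    simp
  have hinv : ∀ y, F y = ch S y := by
    intro y
    have h1 : Integrable F := hF.continuous.integrable_of_hasCompactSupport hFc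
    have h2 : Integrable (𝓕 F) := by rw [← hSe]; exact S.integrable
    have h3 := h1.fourierInv_fourier_eq h2 (v := y) hF.continuous.continuousAt
    rw [← h3, Real.fourierInv_eq', hSe]
    unfold ch
    congr 1
    ext ξ
    rw [smul_eq_mul, mul_comm]
    have e : inner ℝ ξ y = y * ξ := by simp [RCLike.inner_apply]
    rw [e]
    unfold ee
    congr 3
  rw [Metric.tendsto_atTop]
  intro δ hδ
  obtain ⟨ε, hε, hadm, hNN⟩ := tail_small S (δ := δ / 2 / (C + 1)) (by positivity)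
  set G : ℝ → ℂ := fun ξ => S ξ * cu (ε * ξ) with hG
  have hGs : ContDiff ℝ 2 G := (S.smooth 2).mul (cu_smooth.comp (by fun_prop))
  have hGc : HasCompactSupport G := by
    apply HasCompactSupport.intro (isCompact_Icc (a := -(1 / ε)) (b := 1 / ε))
    intro ξ hξ
    rw [hG]
    simp only
    rw [cu_zero, mul_zero]
    by_contra hc
    push Not at hc
    apply hξ
    rw [abs_mul, abs_of_pos hε] at hc
    have h1 : |ξ| < 1 / ε := by rw [lt_div_iff₀ hε]; linarith
    rw [abs_lt] at h1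
    exact ⟨h1.1.le, h1.2.le⟩
  have h1 := spec_conv hβ hβ2 hd hx hGs hGc
  have hG0 : G 0 = ∫ y, F y := by
    rw [hG]
    simp only
    rw [mul_zero, cu_one (by simp), mul_one, hS0]
  rw [hG0, Metric.tendsto_atTop] at h1
  obtain ⟨n0, hn0⟩ := h1 (δ / 2) (half_pos hδ)
  refine ⟨n0, fun n hn => ?_⟩
  set G2 : ℝ → ℂ := fun ξ => S ξ * (1 - cu (ε * ξ)) with hG2
  have e1 : F = fun y => ch G y + ch G2 y := by
    ext y
    rw [← ch_add (Adm.of_compact hGs hGc).i0 hadm.i0, hinv y]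
    congr 1
    ext ξ
    rw [hG, hG2]
    ring
  have h2 := hn0 n hn
  rw [dist_eq_norm] at h2 ⊢
  have h3 : ‖(PO β)^[n] (ch G2) x‖ ≤ NN G2 * C :=
    hC 1 (NN G2) (ch G2) one_pos le_rfl (NN_nonneg _) (fun y => ch_dec hadm y) n
  have h4 : NN G2 * C ≤ δ / 2 := by
    have h5 : NN G2 * (C + 1) < δ / 2 := by
      rw [lt_div_iff₀ (by positivity)] at hNN
      exact hNN
    have := NN_nonneg G2
    nlinarith
  have e2 : (PO β)^[n] F x = (PO β)^[n] (ch G) x + (PO β)^[n] (ch G2) x := by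
    conv_lhs => rw [e1]
    exact iter_addf β _ _ n x
  rw [e2]
  calc ‖(PO β)^[n] (ch G) x + (PO β)^[n] (ch G2) x - (∫ y, F y) * (h x : ℂ)‖
      = ‖((PO β)^[n] (ch G) x - (∫ y, F y) * (h x : ℂ)) + (PO β)^[n] (ch G2) x‖ := by
        congr 1; ring
    _ ≤ _ := norm_add_le _ _
    _ < δ := by linarith

end Pool.Agent.NH64.BC
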