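import Mathlib
import Pool.Agent.NH64.BC.Main2

/-!
# Almost everywhere convergence of the approximating densities
-/

set_option autoImplicit false

open MeasureTheory Set Real Filter Topology
open scoped ENNReal FourierTransform

namespace Pool.Agent.NH64.BC

open Pool.Agent.Results.MP_ddcbd8_an.SingularDensities
open Pool.Agent.NH64.DS.Mn

lemma exists_dens {β : ℝ} (hβ : 1 < β) (hac : bernoulliConv β ≪ volume) :
    ∃ h : ℝ → ℝ, Dens β h ∧
      ∀ᵐ x, ((bernoulliConv β).rnDeriv volume x).toReal = h x := by
  have : Fact (1 < β) := ⟨hβ⟩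
  set r := (bernoulliConv β).rnDeriv volume with hr
  have hrm : Measurable r := Measure.measurable_rnDeriv _ _
  have hrt : ∀ᵐ x, r x < ∞ := Measure.rnDeriv_lt_top _ _
  set I : Set ℝ := Icc (0 : ℝ) (1 / (β - 1)) with hI
  set h : ℝ → ℝ := I.indicator (fun u => (r u).toReal) with hh
  have hm : Measurable h := hrm.ennreal_toReal.indicator measurableSet_Icc
  have hnn : ∀ u, 0 ≤ h u := fun u => indicator_nonneg (fun _ _ => ENNReal.toReal_nonneg) u
  have heq : bernoulliConv β = volume.withDensity (fun u => ENNReal.ofReal (h u)) := by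
    calc bernoulliConv β = (bernoulliConv β).restrict I :=
          (Measure.restrict_eq_self_of_ae_mem (bern_supp hβ)).symm
      _ = (volume.withDensity r).restrict I := by rw [Measure.withDensity_rnDeriv_eq _ _ hac]
      _ = volume.withDensity (I.indicator r) := by
          rw [withDensity_indicator measurableSet_Icc, restrict_withDensity measurableSet_Icc]
      _ = volume.withDensity (fun u => ENNReal.ofReal (h u)) := by
          apply withDensity_congr_ae
          filter_upwards [hrt] with u hu
          by_cases hmem : u ∈ I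
          · rw [hh]
            simp only [indicator_of_mem hmem]
            rw [ENNReal.ofReal_toReal hu.ne]
          · rw [hh]
            simp only [indicator_of_notMem hmem]
            simp
  refine ⟨h, ⟨hm, hnn, ?_, ?_, heq⟩, ?_⟩
  · refine ⟨hm.aestronglyMeasurable, ?_⟩
    rw [hasFiniteIntegral_iff_ofReal (Eventually.of_forall hnn)]
    have h1 : ∫⁻ u, ENNReal.ofReal (h u) = bernoulliConv β univ := by
      rw [heq, withDensity_apply _ MeasurableSet.univ, Measure.restrict_univ]
    rw [h1]
    exact measure_lt_top _ _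
  · intro u hu
    exact indicator_of_notMem hu _
  · have h1 : r =ᵐ[volume] fun u => ENNReal.ofReal (h u) := by
      rw [hr]
      conv_lhs => rw [heq]
      exact Measure.rnDeriv_withDensity volume hm.ennreal_ofReal
    filter_upwards [h1] with x hx
    rw [hx, ENNReal.toReal_ofReal (hnn x)]

/-- real-valued version of the convergence on test functions -/
lemma test_conv_real {β : ℝ} (hβ : 1 < β) (hβ2 : β < 2) {h : ℝ → ℝ} (hd : Dens β h) {x : ℝ}
    (hx : LPt h x) {c : ℝ} (F : ContDiffBump c) :
    Tendsto (fun n : ℕ => (PO β)^[n] (⇑F) x) atTop (𝓝 ((∫ y, F y) * h x)) := by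
  have h1 : ContDiff ℝ (↑(⊤ : ℕ∞)) (fun y => ((F y : ℝ) : ℂ)) :=
    Complex.ofRealCLM.contDiff.comp F.contDiff
  have h2 : HasCompactSupport (fun y => ((F y : ℝ) : ℂ)) :=
    F.hasCompactSupport.comp_left (g := fun t : ℝ => (t : ℂ)) Complex.ofReal_zero
  have h3 := test_conv hβ hβ2 hd hx h1 h2
  simp only [iter_ofReal] at h3
  rw [integral_complex_ofReal, ← Complex.ofReal_mul] at h3
  have h4 := (Complex.continuous_re.tendsto _).comp h3
  rw [Complex.ofReal_re] at h4
  exact h4.congr (fun n => Complex.ofReal_re _)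

theorem window_conv {β : ℝ} (hβ : 1 < β) (hβ2 : β < 2) {h : ℝ → ℝ} (hd : Dens β h) {x : ℝ}
    (hx : LPt h x) : Tendsto (fun n : ℕ => f β n x) atTop (𝓝 (h x)) := by
  have hβ0 : 0 < β := by linarith
  have hβ1 : 0 < β - 1 := by linarith
  set c : ℝ := 1 / (β - 1) with hc
  have hcp : 0 < c := by positivity
  have hcc : (β - 1) * c = 1 := by rw [hc]; field_simp
  have hhx : 0 ≤ h x := hd.nonneg x
  rw [Metric.tendsto_atTop]
  intro ε hε
  -- choice of delta
  set δ : ℝ := min (c / 4) (ε / 4 / ((β - 1) * (h x + 1))) with hδ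
  have hδp : 0 < δ := by positivity
  have hδc : δ ≤ c / 4 := min_le_left _ _
  have hδε : (β - 1) * (2 * δ * h x) ≤ ε / 2 := by
    have h1 : δ ≤ ε / 4 / ((β - 1) * (h x + 1)) := min_le_right _ _
    rw [le_div_iff₀ (by positivity)] at h1
    nlinarith [mul_pos hδp hβ1]
  set Fp : ContDiffBump (c / 2) := ⟨c / 2, c / 2 + δ, by positivity, by linarith⟩ with hFp
  set Fm : ContDiffBump (c / 2) := ⟨c / 2 - δ, c / 2, by linarith, by linarith⟩ with hFm
  have h1p := test_conv_real hβ hβ2 hd hx Fp
  have h1m := test_conv_real hβ hβ2 hd hx Fm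
  -- integrals
  have hIp : ∫ y, Fp y ≤ c + 2 * δ := by
    have h2 : ∫ y, Fp y ≤ ∫ y, (Metric.ball (c / 2) (c / 2 + δ)).indicator (fun _ => (1:ℝ)) y := by
      apply integral_mono Fp.integrable
      · apply (integrable_indicator_iff Metric.isOpen_ball.measurableSet).mpr
        apply integrableOn_const
        · exact measure_ball_lt_top.ne
        · exact enorm_ne_top
      · intro y
        by_cases hy : y ∈ Metric.ball (c / 2) (c / 2 + δ)
        · rw [indicator_of_mem hy]
          exact Fp.le_one
        · rw [indicator_of_notMem hy]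
          rw [Metric.mem_ball, not_lt] at hy
          exact (Fp.zero_of_le_dist hy).le
    refine h2.trans (le_of_eq ?_)
    rw [integral_indicator_const _ Metric.isOpen_ball.measurableSet, measureReal_def,
      Real.volume_ball, ENNReal.toReal_ofReal (by positivity), smul_eq_mul]
    ring
  have hIm : c - 2 * δ ≤ ∫ y, Fm y := by
    have h2 : ∫ y, (Metric.closedBall (c / 2) (c / 2 - δ)).indicator (fun _ => (1:ℝ)) y
        ≤ ∫ y, Fm y := by
      apply integral_mono _ Fm.integrable
      · intro y
        by_cases hy : y ∈ Metric.closedBall (c / 2) (c / 2 - δ)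
        · rw [indicator_of_mem hy]
          exact (Fm.one_of_mem_closedBall hy).ge
        · rw [indicator_of_notMem hy]
          exact Fm.nonneg
      · apply (integrable_indicator_iff Metric.isClosed_closedBall.measurableSet).mpr
        apply integrableOn_const
        · exact measure_closedBall_lt_top.ne
        · exact enorm_ne_top
    refine le_trans (le_of_eq ?_) h2
    rw [integral_indicator_const _ Metric.isClosed_closedBall.measurableSet, measureReal_def,
      Real.volume_closedBall, ENNReal.toReal_ofReal (by linarith), smul_eq_mul]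
    ring
  -- sandwich
  have hf0p : ∀ y, f β 0 y ≤ (β - 1) • Fp y := by
    intro y
    by_cases hy : y ∈ Icc (0 : ℝ) (1 / (β - 1))
    · have : Fp y = 1 := by
        apply Fp.one_of_mem_closedBall
        rw [Metric.mem_closedBall, Real.dist_eq, abs_le]
        have := hy.1
        have := hy.2
        show -(c / 2) ≤ y - c / 2 ∧ y - c / 2 ≤ c / 2
        constructor <;> linarith
      simp only [f]
      rw [indicator_of_mem hy, this, smul_eq_mul, mul_one]
    · simp only [f]
      rw [indicator_of_notMem hy, smul_eq_mul]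
      exact mul_nonneg hβ1.le Fp.nonneg
  have hf0m : ∀ y, (β - 1) • Fm y ≤ f β 0 y := by
    intro y
    by_cases hy : y ∈ Icc (0 : ℝ) (1 / (β - 1))
    · simp only [f]
      rw [indicator_of_mem hy, smul_eq_mul]
      exact mul_le_of_le_one_right hβ1.le Fm.le_one
    · have : Fm y = 0 := by
        apply Fm.zero_of_le_dist
        show c / 2 ≤ dist y (c / 2)
        rw [Real.dist_eq]
        by_contra hcon
        push Not at hcon
        rw [abs_lt] at hcon
        apply hy
        constructor
        · linarith [hcon.1]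
        · linarith [hcon.2]
      simp only [f]
      rw [indicator_of_notMem hy, this, smul_zero]
  have hup : ∀ n, f β n x ≤ (β - 1) * (PO β)^[n] (⇑Fp) x := by
    intro n
    rw [f_eq_iter]
    refine (iter_mono hβ0 hf0p n x).trans (le_of_eq ?_)
    rw [iter_smul, smul_eq_mul]
  have hlo : ∀ n, (β - 1) * (PO β)^[n] (⇑Fm) x ≤ f β n x := by
    intro n
    rw [f_eq_iter]
    refine le_trans (le_of_eq ?_) (iter_mono hβ0 hf0m n x)
    rw [iter_smul, smul_eq_mul]
  have h2p := h1p.const_mul (β - 1)
  have h2m := h1m.const_mul (β - 1)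
  have lp : (β - 1) * ((∫ y, Fp y) * h x) < h x + ε := by
    calc (β - 1) * ((∫ y, Fp y) * h x) ≤ (β - 1) * ((c + 2 * δ) * h x) := by gcongr
      _ = ((β - 1) * c) * h x + (β - 1) * (2 * δ * h x) := by ring
      _ ≤ 1 * h x + ε / 2 := by rw [hcc]; linarith
      _ < h x + ε := by linarith
  have lm : h x - ε < (β - 1) * ((∫ y, Fm y) * h x) := by
    calc h x - ε < 1 * h x - ε / 2 := by linarith
      _ ≤ ((β - 1) * c) * h x - (β - 1) * (2 * δ * h x) := by rw [hcc]; linarith
      _ = (β - 1) * ((c - 2 * δ) * h x) := by ring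
      _ ≤ _ := by gcongr
  obtain ⟨n0, hn0⟩ := eventually_atTop.mp
    ((h2p.eventually_lt_const lp).and (h2m.eventually_const_lt lm))
  refine ⟨n0, fun n hn => ?_⟩
  obtain ⟨g1, g2⟩ := hn0 n hn
  rw [Real.dist_eq, abs_lt]
  constructor
  · linarith [hlo n]
  · linarith [hup n]

theorem main {β : ℝ} (hβ : 1 < β) (hβ2 : β < 2) (hac : bernoulliConv β ≪ volume) :
    ∀ᵐ x, Tendsto (fun n : ℕ => f β n x) atTop
      (𝓝 ((bernoulliConv β).rnDeriv volume x).toReal) := by
  obtain ⟨h, hd, hr⟩ := exists_dens hβ hac
  filter_upwards [ae_LPt hd.int, hr] with x hx hrx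
  rw [hrx]
  exact window_conv hβ hβ2 hd hx

end Pool.Agent.NH64.BC
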